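import Pool.Agent.Lib.P42cda2.Solver

set_option autoImplicit false

namespace Pool.Agent.Lib.P42cda2

lemma Rep.perm {L L' : List V3} (h : L.Perm L') : ∀ W, Rep L W → Rep L' W := by
  induction h with
  | nil => intro W h; exact h
  | cons a _ ih => intro W ⟨e, h⟩; exact ⟨e, ih _ h⟩
  | swap a b l =>
    intro W ⟨e, e', h⟩
    exact ⟨e', e, by rw [vsub_comm3]; exact h⟩
  | trans _ _ ih1 ih2 => intro W h; exact ih2 _ (ih1 _ h)

lemma Rep.append : ∀ (L1 L2 : List V3) (W1 W2 : V3), Rep L1 W1 → Rep L2 W2 →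
    Rep (L1 ++ L2) (vadd W1 W2)
  | [], L2, W1, W2, h1, h2 => by
      have : vadd W1 W2 = W2 := by
        have h3 : W1 = (0, 0, 0) := h1
        rw [h3]; simp [vadd]
      rw [this]; exact h2
  | v :: L1, L2, W1, W2, ⟨e, h1⟩, h2 => by
      refine ⟨e, ?_⟩
      have := Rep.append L1 L2 _ _ h1 h2
      have e1 : vsub (vadd W1 W2) (vsmul (4 ^ e) v) = vadd (vsub W1 (vsmul (4 ^ e) v)) W2 := by
        simp only [vsub, vadd, vsmul, Prod.mk.injEq]
        refine ⟨by ring, by ring, by ring⟩
      show Rep (L1 ++ L2) (vsub (vadd W1 W2) (vsmul (4 ^ e) v))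
      rw [e1]; exact this

structure Fam where
  D : ℤ
  cols : List V3
deriving DecidableEq, Repr

/-- the family `F` is realised by `(a,b,c)` -/
def Rlz (F : Fam) (a b c : ℤ) : Prop := 0 < F.D ∧ Rep F.cols (F.D * a, F.D * b, F.D * c)

def isz (v : V3) : Bool := v.1 == 0 && v.2.1 == 0 && v.2.2 == 0

lemma isz_iff (v : V3) : isz v = true ↔ v = (0, 0, 0) := by
  obtain ⟨x, y, z⟩ := v
  simp [isz, and_assoc]

lemma Rep.filter : ∀ (L : List V3) (W : V3), Rep L W → Rep (L.filter (fun v => !isz v)) W
  | [], W, h => h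
  | v :: L, W, ⟨e, h⟩ => by
      have ih := Rep.filter L _ h
      by_cases hv : isz v = true
      · have h0 := (isz_iff v).mp hv
        rw [List.filter_cons_of_neg (by simp [hv])]
        have e1 : vsub W (vsmul (4 ^ e) v) = W := by
          rw [h0]; simp [vsub, vsmul]
        rw [e1] at ih; exact ih
      · rw [List.filter_cons_of_pos (by simpa using hv)]
        exact ⟨e, ih⟩

/-- divide a column by 4 while possible -/
def red4 : ℕ → V3 → V3
  | 0, v => v
  | k + 1, v =>
    if v.1 % 4 = 0 ∧ v.2.1 % 4 = 0 ∧ v.2.2 % 4 = 0 then red4 k (v.1 / 4, v.2.1 / 4, v.2.2 / 4)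
    else v

lemma red4_spec : ∀ (k : ℕ) (v : V3), ∃ j : ℕ, v = vsmul (4 ^ j) (red4 k v)
  | 0, v => ⟨0, by simp [red4, vsmul]⟩
  | k + 1, v => by
      unfold red4
      split_ifs with h
      · obtain ⟨j, hj⟩ := red4_spec k (v.1 / 4, v.2.1 / 4, v.2.2 / 4)
        refine ⟨j + 1, ?_⟩
        have h1 : v.1 = 4 * (v.1 / 4) := by omega
        have h2 : v.2.1 = 4 * (v.2.1 / 4) := by omega
        have h3 : v.2.2 = 4 * (v.2.2 / 4) := by omega
        have hj1 := congrArg (fun t : V3 => t.1) hj
        have hj2 := congrArg (fun t : V3 => t.2.1) hj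
        have hj3 := congrArg (fun t : V3 => t.2.2) hj
        simp only [vsmul] at hj1 hj2 hj3
        apply Prod.ext
        · simp only [vsmul]; linear_combination h1 + 4 * hj1
        · apply Prod.ext
          · simp only [vsmul]; linear_combination h2 + 4 * hj2
          · simp only [vsmul]; linear_combination h3 + 4 * hj3
      · exact ⟨0, by simp [vsmul]⟩

lemma Rep.red4 (k : ℕ) : ∀ (L : List V3) (W : V3), Rep L W → Rep (L.map (red4 k)) W
  | [], W, h => h
  | v :: L, W, ⟨e, h⟩ => by
      have ih := Rep.red4 k L _ h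
      obtain ⟨j, hj⟩ := red4_spec k v
      refine ⟨e + j, ?_⟩
      have e1 : vsub W (vsmul (4 ^ (e + j)) (P42cda2.red4 k v)) = vsub W (vsmul (4 ^ e) v) := by
        conv_rhs => rw [hj]
        simp only [vsub, vsmul, Prod.mk.injEq]
        refine ⟨by ring, by ring, by ring⟩
      show Rep (L.map (P42cda2.red4 k)) (vsub W (vsmul (4 ^ (e + j)) (P42cda2.red4 k v)))
      rw [e1]; exact ih

def gcdc (g : ℕ) (cols : List V3) : ℕ :=
  cols.foldl (fun g v => Nat.gcd g (Nat.gcd v.1.natAbs (Nat.gcd v.2.1.natAbs v.2.2.natAbs))) g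

def lexlt (u v : V3) : Bool :=
  decide (u.1 < v.1) || (decide (u.1 = v.1) &&
    (decide (u.2.1 < v.2.1) || (decide (u.2.1 = v.2.1) && decide (u.2.2 ≤ v.2.2))))

def insertc (u : V3) : List V3 → List V3
  | [] => [u]
  | v :: L => if lexlt u v then u :: v :: L else v :: insertc u L

lemma insertc_perm (u : V3) : ∀ L : List V3, (u :: L).Perm (insertc u L)
  | [] => List.Perm.refl _
  | v :: L => by
      unfold insertc
      split_ifs
      · exact List.Perm.refl _
      · exact (List.Perm.swap v u L).trans (List.Perm.cons v (insertc_perm u L))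

def sortc : List V3 → List V3
  | [] => []
  | v :: L => insertc v (sortc L)

lemma sortc_perm : ∀ L : List V3, L.Perm (sortc L)
  | [] => List.Perm.refl _
  | v :: L => (List.Perm.cons v (sortc_perm L)).trans (insertc_perm v _)

def divg (g : ℤ) (F : Fam) : Fam :=
  if 0 < g ∧ F.D % g = 0 ∧ F.cols.all (fun v => v.1 % g == 0 && v.2.1 % g == 0 && v.2.2 % g == 0)
  then ⟨F.D / g, F.cols.map (fun v => (v.1 / g, v.2.1 / g, v.2.2 / g))⟩ else F

lemma Rep.divg (g : ℤ) (hg : 0 < g) : ∀ (L : List V3) (W : V3),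
    (L.all (fun v => v.1 % g == 0 && v.2.1 % g == 0 && v.2.2 % g == 0)) = true →
    Rep L (vsmul g W) → Rep (L.map (fun v => (v.1 / g, v.2.1 / g, v.2.2 / g))) W
  | [], W, _, h => by
      have h' : vsmul g W = (0, 0, 0) := h
      simp only [vsmul, Prod.mk.injEq, mul_eq_zero] at h'
      obtain ⟨h1, h2, h3⟩ := h'
      have h1' := h1.resolve_left hg.ne'
      have h2' := h2.resolve_left hg.ne'
      have h3' := h3.resolve_left hg.ne'
      show W = (0, 0, 0)
      exact Prod.ext h1' (Prod.ext h2' h3')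
  | v :: L, W, hall, ⟨e, h⟩ => by
      simp only [List.all_cons, Bool.and_eq_true, beq_iff_eq] at hall
      obtain ⟨⟨⟨h1, h2⟩, h3⟩, hL⟩ := hall
      refine ⟨e, ?_⟩
      apply Rep.divg g hg L _ hL
      have e1 : v.1 = g * (v.1 / g) := (Int.mul_ediv_cancel' (Int.dvd_of_emod_eq_zero h1)).symm
      have e2 : v.2.1 = g * (v.2.1 / g) := (Int.mul_ediv_cancel' (Int.dvd_of_emod_eq_zero h2)).symm
      have e3 : v.2.2 = g * (v.2.2 / g) := (Int.mul_ediv_cancel' (Int.dvd_of_emod_eq_zero h3)).symm
      have e4 : vsub (vsmul g W) (vsmul (4 ^ e) v) =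
          vsmul g (vsub W (vsmul (4 ^ e) (v.1 / g, v.2.1 / g, v.2.2 / g))) := by
        simp only [vsub, vsmul, Prod.mk.injEq]
        refine ⟨?_, ?_, ?_⟩
        · conv_lhs => rw [e1]
          ring
        · conv_lhs => rw [e2]
          ring
        · conv_lhs => rw [e3]
          ring
      rw [← e4]
      exact h

lemma Rlz.divg (g : ℤ) (F : Fam) (a b c : ℤ) (h : Rlz F a b c) : Rlz (divg g F) a b c := by
  unfold P42cda2.divg
  split_ifs with hc
  · obtain ⟨hg, hD, hall⟩ := hc
    obtain ⟨hD0, hrep⟩ := h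
    have e1 : F.D = g * (F.D / g) := (Int.mul_ediv_cancel' (Int.dvd_of_emod_eq_zero hD)).symm
    refine ⟨?_, ?_⟩
    · by_contra hneg
      push Not at hneg
      simp only at hneg
      nlinarith
    · apply Rep.divg g hg _ _ hall
      have e2 : vsmul g (F.D / g * a, F.D / g * b, F.D / g * c) = (F.D * a, F.D * b, F.D * c) := by
        simp only [vsmul, Prod.mk.injEq]
        refine ⟨?_, ?_, ?_⟩
        · conv_rhs => rw [e1]
          ring
        · conv_rhs => rw [e1]
          ring
        · conv_rhs => rw [e1]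
          ring
      rw [e2]; exact hrep
  · exact h

def nrm (F : Fam) : Fam :=
  let c1 := (F.cols.filter (fun v => !isz v)).map (red4 20)
  let G := divg (gcdc F.D.natAbs c1) ⟨F.D, c1⟩
  ⟨G.D, sortc G.cols⟩

lemma Rlz.nrm (F : Fam) (a b c : ℤ) (h : Rlz F a b c) : Rlz (nrm F) a b c := by
  unfold P42cda2.nrm
  have h1 : Rlz ⟨F.D, (F.cols.filter (fun v => !isz v)).map (P42cda2.red4 20)⟩ a b c :=
    ⟨h.1, Rep.red4 20 _ _ (Rep.filter _ _ h.2)⟩
  have h2 := Rlz.divg (gcdc F.D.natAbs ((F.cols.filter (fun v => !isz v)).map (P42cda2.red4 20)))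
    _ a b c h1
  exact ⟨h2.1, Rep.perm (sortc_perm _) _ h2.2⟩

def dot (w v : V3) : ℤ := w.1 * v.1 + w.2.1 * v.2.1 + w.2.2 * v.2.2

lemma dot_vsub (w u v : V3) (e : ℕ) :
    dot w (vsub u (vsmul (4 ^ e) v)) = dot w u - dot w v * 4 ^ e := by
  simp only [dot, vsub, vsmul]; ring

lemma Rep.dot_nonpos (w : V3) : ∀ (L : List V3) (W : V3), Rep L W →
    L.all (fun v => decide (dot w v ≤ 0)) = true → dot w W ≤ 0
  | [], W, h, _ => by
      have h' : W = (0, 0, 0) := h
      rw [h']; simp [dot]
  | v :: L, W, ⟨e, h⟩, hall => by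
      simp only [List.all_cons, Bool.and_eq_true, decide_eq_true_eq] at hall
      have ih := Rep.dot_nonpos w L _ h hall.2
      rw [dot_vsub] at ih
      have h4 : (0 : ℤ) < 4 ^ e := by positivity
      nlinarith [hall.1, h4]

lemma Rep.dot_mod3 (w : V3) : ∀ (L : List V3) (W : V3), Rep L W →
    (3 : ℤ) ∣ dot w W - (L.map (dot w)).sum
  | [], W, h => by
      have h' : W = (0, 0, 0) := h
      rw [h']; simp [dot]
  | v :: L, W, ⟨e, h⟩ => by
      have ih := Rep.dot_mod3 w L _ h
      rw [dot_vsub] at ih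
      simp only [List.map_cons, List.sum_cons]
      have h3 : (3 : ℤ) ∣ 4 ^ e - 1 := by
        have := sub_dvd_pow_sub_pow (4 : ℤ) 1 e
        simpa using this
      obtain ⟨t, ht⟩ := h3
      obtain ⟨r, hr⟩ := ih
      refine ⟨r + dot w v * t, ?_⟩
      have : (4 : ℤ) ^ e = 3 * t + 1 := by linarith
      rw [this] at hr
      linarith

def dead (F : Fam) : Bool :=
  [((1, 0, 0) : V3), (0, 1, 0), (0, 0, 1), (0, 1, 1), (1, 1, 0), (1, 0, 1)].any
    (fun w => F.cols.all (fun v => decide (dot w v ≤ 0)))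
  || (decide (F.D % 3 = 0) && [((1, 0, 0) : V3), (0, 1, 0), (0, 0, 1)].any
    (fun w => !decide ((F.cols.map (dot w)).sum % 3 = 0)))

lemma dead_sound (F : Fam) (a b c : ℤ) (ha : 0 < a) (hb : 0 < b) (hc : 0 < c)
    (h : Rlz F a b c) (hd : dead F = true) : False := by
  obtain ⟨hD, hrep⟩ := h
  unfold dead at hd
  rw [Bool.or_eq_true] at hd
  have hDa := mul_pos hD ha
  have hDb := mul_pos hD hb
  have hDc := mul_pos hD hc
  rcases hd with hd | hd
  · rw [List.any_eq_true] at hd
    obtain ⟨w, hw, hall⟩ := hd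
    have := Rep.dot_nonpos w _ _ hrep hall
    simp only [List.mem_cons, List.not_mem_nil, or_false] at hw
    rcases hw with rfl | rfl | rfl | rfl | rfl | rfl <;> simp only [dot] at this <;> linarith
  · rw [Bool.and_eq_true, List.any_eq_true] at hd
    obtain ⟨h3, w, hw, hne⟩ := hd
    have h3' : F.D % 3 = 0 := by simpa using h3
    have hne' : ¬ ((F.cols.map (dot w)).sum % 3 = 0) := by simpa using hne
    have h1 := Rep.dot_mod3 w _ _ hrep
    have hD3 : (3 : ℤ) ∣ F.D := Int.dvd_of_emod_eq_zero h3'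
    have h2 : (3 : ℤ) ∣ dot w (F.D * a, F.D * b, F.D * c) := by
      obtain ⟨t, ht⟩ := hD3
      refine ⟨t * (w.1 * a + w.2.1 * b + w.2.2 * c), ?_⟩
      simp only [dot, ht]; ring
    have h4 : (3 : ℤ) ∣ (F.cols.map (dot w)).sum := by
      have := dvd_sub h2 h1
      simpa using this
    exact hne' (Int.emod_eq_zero_of_dvd h4)

def target (F : Fam) : Bool :=
  match F.cols with
  | [v] => (decide (v.2.1 = 2 * v.1) && decide (v.2.2 = 3 * v.1)) ||
      (decide (v.2.1 = 3 * v.1) && decide (v.2.2 = 2 * v.1))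
  | _ => false

lemma target_sound (F : Fam) (a b c : ℤ) (h : Rlz F a b c) (ht : target F = true) :
    (b = 2 * a ∧ c = 3 * a) ∨ (b = 3 * a ∧ c = 2 * a) := by
  obtain ⟨D, cols⟩ := F
  obtain ⟨hD, hrep⟩ := h
  simp only at hD hrep
  unfold target at ht
  simp only at ht
  match cols, hrep, ht with
  | [v], hrep, ht =>
    obtain ⟨e, he⟩ := hrep
    have he' : vsub (D * a, D * b, D * c) (vsmul (4 ^ e) v) = (0, 0, 0) := he
    simp only [vsub, vsmul, Prod.mk.injEq] at he'
    obtain ⟨h1, h2, h3⟩ := he'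
    simp only [Bool.or_eq_true, Bool.and_eq_true, decide_eq_true_eq] at ht
    rcases ht with ⟨t1, t2⟩ | ⟨t1, t2⟩
    · left
      rw [t1] at h2; rw [t2] at h3
      constructor
      · have : D * (b - 2 * a) = 0 := by linear_combination h2 - 2 * h1
        rcases mul_eq_zero.mp this with h | h
        · omega
        · omega
      · have : D * (c - 3 * a) = 0 := by linear_combination h3 - 3 * h1
        rcases mul_eq_zero.mp this with h | h
        · omega
        · omega
    · right
      rw [t1] at h2; rw [t2] at h3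
      constructor
      · have : D * (b - 3 * a) = 0 := by linear_combination h2 - 3 * h1
        rcases mul_eq_zero.mp this with h | h
        · omega
        · omega
      · have : D * (c - 2 * a) = 0 := by linear_combination h3 - 2 * h1
        rcases mul_eq_zero.mp this with h | h
        · omega
        · omega

def addF (G : Fam) (L : List Fam) : List Fam :=
  if dead G || target G || L.contains G then L else G :: L

def childrenAux (x : V3) (F : Fam) : List Fam :=
  if ((F.cols.map (dot x)).sum - F.D) % 3 = 0 then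
    let terms := F.cols.map (fun v => (dot x v, v))
    let nz := terms.filter (fun t => !decide (t.1 = 0))
    let z := terms.filter (fun t => decide (t.1 = 0))
    ((solveTop 60 ((-F.D, (0, 0, 0)) :: nz)).map (fun L => nrm ⟨F.D, L ++ z.map Prod.snd⟩))
  else []

def children (vs : List V3) (F : Fam) : List Fam :=
  vs.foldr (fun x acc => (childrenAux x F).foldr addF acc) []

lemma Rep.terms (x : V3) : ∀ (L : List V3) (W : V3), Rep L W →
    RepGe 0 (L.map (fun v => (dot x v, v))) (dot x W) W
  | [], W, h => by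
      have h' : W = (0, 0, 0) := h
      rw [h']; exact ⟨by simp [dot], rfl⟩
  | v :: L, W, ⟨e, h⟩ => by
      refine ⟨e, Nat.zero_le _, ?_⟩
      have ih := Rep.terms x L _ h
      rw [dot_vsub] at ih
      exact ih

lemma RepGe.split : ∀ (R : List (ℤ × V3)) (S : ℤ) (W : V3), RepGe 0 R S W →
    ∃ W1 W2, W = vadd W1 W2 ∧ RepGe 0 (R.filter (fun t => !decide (t.1 = 0))) S W1 ∧
      Rep ((R.filter (fun t => decide (t.1 = 0))).map Prod.snd) W2
  | [], S, W, h => ⟨(0, 0, 0), (0, 0, 0), by rw [h.2]; simp [vadd], ⟨h.1, rfl⟩, rfl⟩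
  | q :: R, S, W, ⟨e, he, h⟩ => by
      obtain ⟨W1, W2, hW, h1, h2⟩ := RepGe.split R _ _ h
      by_cases hq : q.1 = 0
      · refine ⟨W1, vadd W2 (vsmul (4 ^ e) q.2), ?_, ?_, ?_⟩
        · have h3 := congrArg (fun t => vadd t (vsmul (4 ^ e) q.2)) hW
          simp only [vadd, vsub, vsmul, Prod.mk.injEq] at h3 ⊢
          obtain ⟨a1, a2, a3⟩ := h3
          refine Prod.ext ?_ (Prod.ext ?_ ?_)
          · simp only; linarith
          · simp only; linarith
          · simp only; linarith
        · rw [List.filter_cons_of_neg (by simp [hq])]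
          rw [hq] at h1
          simpa using h1
        · rw [List.filter_cons_of_pos (by simp [hq])]
          simp only [List.map_cons]
          refine ⟨e, ?_⟩
          have e1 : vsub (vadd W2 (vsmul (4 ^ e) q.2)) (vsmul (4 ^ e) q.2) = W2 := by
            simp [vsub, vadd]
          rw [e1]; exact h2
      · refine ⟨vadd W1 (vsmul (4 ^ e) q.2), W2, ?_, ?_, ?_⟩
        · have h3 := congrArg (fun t => vadd t (vsmul (4 ^ e) q.2)) hW
          simp only [vadd, vsub, vsmul, Prod.mk.injEq] at h3 ⊢
          obtain ⟨a1, a2, a3⟩ := h3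
          refine Prod.ext ?_ (Prod.ext ?_ ?_)
          · simp only; linarith
          · simp only; linarith
          · simp only; linarith
        · rw [List.filter_cons_of_pos (by simp [hq])]
          refine ⟨e, Nat.zero_le _, ?_⟩
          have e1 : vsub (vadd W1 (vsmul (4 ^ e) q.2)) (vsmul (4 ^ e) q.2) = W1 := by
            simp [vsub, vadd]
          rw [e1]; exact h1
        · rw [List.filter_cons_of_neg (by simp [hq])]
          exact h2

lemma childrenAux_sound (x : V3) (F : Fam) (a b c : ℤ) (l : ℕ) (h : Rlz F a b c)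
    (hx : x.1 * a + x.2.1 * b + x.2.2 * c = 4 ^ l) : ∃ G ∈ childrenAux x F, Rlz G a b c := by
  obtain ⟨hD, hrep⟩ := h
  have h1 := Rep.terms x _ _ hrep
  obtain ⟨W1, W2, hW, h2, h3⟩ := RepGe.split _ _ _ h1
  have h4 : RepGe 0 ((-F.D, (0, 0, 0)) ::
      (F.cols.map (fun v => (dot x v, v))).filter (fun t => !decide (t.1 = 0))) 0 W1 := by
    refine ⟨l, Nat.zero_le _, ?_⟩
    have e1 : (0 : ℤ) - (-F.D) * 4 ^ l = dot x (F.D * a, F.D * b, F.D * c) := by
      rw [← hx]; simp only [dot]; ring
    have e2 : vsub W1 (vsmul (4 ^ l) (0, 0, 0)) = W1 := by simp [vsub, vsmul]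
    show RepGe 0 _ ((0 : ℤ) - (-F.D) * 4 ^ l) (vsub W1 (vsmul (4 ^ l) (0, 0, 0)))
    rw [e1, e2]; exact h2
  obtain ⟨L, hL, hrepL⟩ := solveTop_sound 60 _ _ h4
  refine ⟨nrm ⟨F.D, L ++ ((F.cols.map (fun v => (dot x v, v))).filter
    (fun t => decide (t.1 = 0))).map Prod.snd⟩, ?_, ?_⟩
  · unfold childrenAux
    have h5 := Rep.dot_mod3 x _ _ hrep
    have h6 : dot x (F.D * a, F.D * b, F.D * c) = F.D * 4 ^ l := by
      rw [← hx]; simp only [dot]; ring
    rw [h6] at h5
    have h7 : (3 : ℤ) ∣ 4 ^ l - 1 := by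
      have := sub_dvd_pow_sub_pow (4 : ℤ) 1 l
      simpa using this
    have h8 : ((F.cols.map (dot x)).sum - F.D) % 3 = 0 := by
      apply Int.emod_eq_zero_of_dvd
      have h9 := dvd_sub (Dvd.dvd.mul_left h7 F.D) h5
      have e : F.D * (4 ^ l - 1) - (F.D * 4 ^ l - (F.cols.map (dot x)).sum) =
          (F.cols.map (dot x)).sum - F.D := by ring
      rwa [e] at h9
    rw [if_pos h8]
    simp only [List.mem_map]
    exact ⟨L, hL, rfl⟩
  · apply Rlz.nrm
    refine ⟨hD, ?_⟩
    show Rep (L ++ _) (F.D * a, F.D * b, F.D * c)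
    rw [hW]
    exact Rep.append _ _ _ _ hrepL h3

lemma addF_mem (G H : Fam) (L : List Fam) (h : H ∈ L) : H ∈ addF G L := by
  unfold addF; split_ifs
  · exact h
  · exact List.mem_cons_of_mem _ h

lemma addF_foldr_mem (M : List Fam) (L : List Fam) (H : Fam) (h : H ∈ L) :
    H ∈ M.foldr addF L := by
  induction M with
  | nil => exact h
  | cons G M ih => simp only [List.foldr_cons]; exact addF_mem _ _ _ ih

lemma addF_foldr_mem' (M : List Fam) (L : List Fam) (H : Fam) (h : H ∈ M)
    (hd : dead H = false) (ht : target H = false) : H ∈ M.foldr addF L := by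
  induction M with
  | nil => simp at h
  | cons G M ih =>
    simp only [List.foldr_cons]
    rcases List.mem_cons.mp h with rfl | h
    · unfold addF
      split_ifs with hc
      · simp only [hd, ht, Bool.false_or, List.contains_iff_mem] at hc
        exact hc
      · exact List.mem_cons_self
    · exact addF_mem _ _ _ (ih h)

lemma children_mem (vs : List V3) (F : Fam) (x : V3) (hx : x ∈ vs) (G : Fam)
    (hG : G ∈ childrenAux x F) (hd : dead G = false) (ht : target G = false) :
    G ∈ children vs F := by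
  unfold children
  induction vs with
  | nil => simp at hx
  | cons y vs ih =>
    simp only [List.foldr_cons]
    rcases List.mem_cons.mp hx with rfl | hx
    · exact addF_foldr_mem' _ _ _ hG hd ht
    · exact addF_foldr_mem _ _ _ (ih hx)

/-- `sqMask n` has the bits `w * w`, `w ≤ n`, set -/
def sqMask : ℕ → ℕ
  | 0 => 1
  | n + 1 => sqMask n ||| 2 ^ ((n + 1) * (n + 1))

lemma sqMask_testBit : ∀ (n w : ℕ), w ≤ n → (sqMask n).testBit (w * w) = true
  | 0, w, h => by
      have : w = 0 := by omega
      subst this; decide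
  | n + 1, w, h => by
      rw [sqMask, Nat.testBit_lor]
      rcases Nat.lt_or_ge n w with h1 | h1
      · have : w = n + 1 := by omega
        subst this
        simp
      · rw [sqMask_testBit n w h1]; simp

/-- inner loop, `r = n^2 - x^2 - y^2`, `M` the mask of squares, `z` going down -/
def loopZ (M : ℕ) (x y r : ℕ) : ℕ → List V3 → List V3
  | 0, acc => if M.testBit r then ((x : ℤ), (y : ℤ), (0 : ℤ)) :: acc else acc
  | z + 1, acc =>
    if (z + 1) * (z + 1) ≤ r then
      (if M.testBit (r - (z + 1) * (z + 1)) then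
        loopZ M x y r z (((x : ℤ), (y : ℤ), ((z + 1 : ℕ) : ℤ)) :: acc) else loopZ M x y r z acc)
    else loopZ M x y r z acc

def loopY (M : ℕ) (n x r : ℕ) : ℕ → List V3 → List V3
  | 0, acc => loopZ M x 0 r n acc
  | y + 1, acc =>
    if (y + 1) * (y + 1) ≤ r then
      loopY M n x r y (loopZ M x (y + 1) (r - (y + 1) * (y + 1)) n acc)
    else loopY M n x r y acc

def loopX (M : ℕ) (n : ℕ) : ℕ → List V3 → List V3
  | 0, acc => loopY M n 0 (n * n) n acc
  | x + 1, acc => loopX M n x (loopY M n (x + 1) (n * n - (x + 1) * (x + 1)) n acc)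

def vecs (n : ℕ) : List V3 := loopX (sqMask n) n n []

lemma loopZ_acc (M x y r : ℕ) (v : V3) : ∀ (z : ℕ) (acc : List V3), v ∈ acc →
    v ∈ loopZ M x y r z acc
  | 0, acc, h => by
      unfold loopZ; split_ifs
      · exact List.mem_cons_of_mem _ h
      · exact h
  | z + 1, acc, h => by
      unfold loopZ; split_ifs
      · exact loopZ_acc M x y r v z _ (List.mem_cons_of_mem _ h)
      · exact loopZ_acc M x y r v z _ h
      · exact loopZ_acc M x y r v z _ h

lemma loopY_acc (M n x r : ℕ) (v : V3) : ∀ (y : ℕ) (acc : List V3), v ∈ acc →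
    v ∈ loopY M n x r y acc
  | 0, acc, h => by unfold loopY; exact loopZ_acc _ _ _ _ _ _ _ h
  | y + 1, acc, h => by
      unfold loopY; split_ifs
      · exact loopY_acc M n x r v y _ (loopZ_acc _ _ _ _ _ _ _ h)
      · exact loopY_acc M n x r v y _ h

lemma loopX_acc (M n : ℕ) (v : V3) : ∀ (x : ℕ) (acc : List V3), v ∈ acc →
    v ∈ loopX M n x acc
  | 0, acc, h => by unfold loopX; exact loopY_acc _ _ _ _ _ _ _ h
  | x + 1, acc, h => by
      unfold loopX
      exact loopX_acc M n v x _ (loopY_acc _ _ _ _ _ _ _ h)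

lemma loopZ_mem (n x y z w r : ℕ) (hr : r = z * z + w * w) (hw : w ≤ n) :
    ∀ (Z : ℕ) (acc : List V3), z ≤ Z →
    ((x : ℤ), (y : ℤ), (z : ℤ)) ∈ loopZ (sqMask n) x y r Z acc
  | 0, acc, h => by
      have : z = 0 := by omega
      subst this
      unfold loopZ
      have h1 : (sqMask n).testBit r = true := by
        rw [hr]; simpa using sqMask_testBit n w hw
      rw [if_pos h1]
      exact List.mem_cons_self
  | Z + 1, acc, h => by
      unfold loopZ
      rcases Nat.lt_or_ge Z z with h1 | h1
      · have : z = Z + 1 := by omega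
        subst this
        have h2 : (Z + 1) * (Z + 1) ≤ r := by rw [hr]; exact Nat.le_add_right _ _
        have h3 : (sqMask n).testBit (r - (Z + 1) * (Z + 1)) = true := by
          have : r - (Z + 1) * (Z + 1) = w * w := by rw [hr]; simp
          rw [this]; exact sqMask_testBit n w hw
        rw [if_pos h2, if_pos h3]
        exact loopZ_acc _ _ _ _ _ _ _ List.mem_cons_self
      · split_ifs
        · exact loopZ_mem n x y z w r hr hw Z _ h1
        · exact loopZ_mem n x y z w r hr hw Z _ h1
        · exact loopZ_mem n x y z w r hr hw Z _ h1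

lemma loopY_mem (n x y z w r : ℕ) (hr : r = y * y + z * z + w * w) (hw : w ≤ n) (hz : z ≤ n) :
    ∀ (Y : ℕ) (acc : List V3), y ≤ Y →
    ((x : ℤ), (y : ℤ), (z : ℤ)) ∈ loopY (sqMask n) n x r Y acc
  | 0, acc, h => by
      have : y = 0 := by omega
      subst this
      unfold loopY
      exact loopZ_mem n x 0 z w r (by rw [hr]; ring) hw n acc hz
  | Y + 1, acc, h => by
      unfold loopY
      rcases Nat.lt_or_ge Y y with h1 | h1
      · have : y = Y + 1 := by omega
        subst this
        have h2 : (Y + 1) * (Y + 1) ≤ r := by rw [hr, add_assoc]; exact Nat.le_add_right _ _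
        rw [if_pos h2]
        apply loopY_acc
        apply loopZ_mem n x (Y + 1) z w _ _ hw n acc hz
        rw [hr, add_assoc]; simp
      · split_ifs
        · exact loopY_mem n x y z w r hr hw hz Y _ h1
        · exact loopY_mem n x y z w r hr hw hz Y _ h1

lemma loopX_mem (n x y z w : ℕ) (hr : n * n = x * x + y * y + z * z + w * w) (hw : w ≤ n)
    (hz : z ≤ n) (hy : y ≤ n) : ∀ (X : ℕ) (acc : List V3), x ≤ X →
    ((x : ℤ), (y : ℤ), (z : ℤ)) ∈ loopX (sqMask n) n X acc
  | 0, acc, h => by
      have : x = 0 := by omega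
      subst this
      unfold loopX
      exact loopY_mem n 0 y z w _ (by rw [hr]; ring) hw hz n acc hy
  | X + 1, acc, h => by
      unfold loopX
      rcases Nat.lt_or_ge X x with h1 | h1
      · have : x = X + 1 := by omega
        subst this
        apply loopX_acc
        apply loopY_mem n (X + 1) y z w _ _ hw hz n acc hy
        rw [hr, add_assoc, add_assoc]; simp [add_assoc]
      · exact loopX_mem n x y z w hr hw hz hy X _ h1

lemma vecs_mem (n x y z w : ℕ) (h : n ^ 2 = x ^ 2 + y ^ 2 + z ^ 2 + w ^ 2) :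
    ((x : ℤ), (y : ℤ), (z : ℤ)) ∈ vecs n := by
  have hx : x < n + 1 := by nlinarith [sq_nonneg y, sq_nonneg z, sq_nonneg w]
  have hy : y < n + 1 := by nlinarith [sq_nonneg x, sq_nonneg z, sq_nonneg w]
  have hz : z < n + 1 := by nlinarith [sq_nonneg y, sq_nonneg x, sq_nonneg w]
  have hw : w < n + 1 := by nlinarith [sq_nonneg y, sq_nonneg z, sq_nonneg x]
  exact loopX_mem n x y z w (by nlinarith) (by omega) (by omega) (by omega) n [] (by omega)

/-- process the stack of families following the certificate `cert` -/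
def run : List ℕ → List Fam → Bool
  | _, [] => true
  | [], _ :: _ => false
  | n :: cert, F :: stack => run cert (children (vecs n) F ++ stack)

/-- the conclusion we are after -/
def Concl (a b c : ℤ) : Prop := (b = 2 * a ∧ c = 3 * a) ∨ (b = 3 * a ∧ c = 2 * a)

/-- representability condition for a fixed `n`, integer version -/
def At (n : ℕ) (a b c : ℤ) : Prop :=
  ∃ x y z w : ℕ, n ^ 2 = x ^ 2 + y ^ 2 + z ^ 2 + w ^ 2 ∧
    ∃ k : ℕ, (x : ℤ) * a + (y : ℤ) * b + (z : ℤ) * c = 4 ^ k

lemma run_sound (a b c : ℤ) (ha : 0 < a) (hb : 0 < b) (hc : 0 < c) :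
    ∀ (cert : List ℕ) (stack : List Fam), (∀ n ∈ cert, At n a b c) →
    run cert stack = true → ∀ F ∈ stack, Rlz F a b c → Concl a b c
  | _, [], _, _, F, hF, _ => by simp at hF
  | [], G :: stack, _, hrun, _, _, _ => by simp [run] at hrun
  | n :: cert, G :: stack, hAt, hrun, F, hF, hreal => by
      have hrun' : run cert (children (vecs n) G ++ stack) = true := hrun
      have ih := run_sound a b c ha hb hc cert _
        (fun m hm => hAt m (List.mem_cons_of_mem _ hm)) hrun'
      rcases List.mem_cons.mp hF with rfl | hF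
      · obtain ⟨x, y, z, w, hsq, k, hk⟩ := hAt n List.mem_cons_self
        obtain ⟨H, hH, hHreal⟩ := childrenAux_sound ((x : ℤ), (y : ℤ), (z : ℤ)) F a b c k hreal hk
        by_cases hd : dead H = true
        · exact absurd hd (fun h => dead_sound H a b c ha hb hc hHreal h)
        · by_cases ht : target H = true
          · exact target_sound H a b c hHreal ht
          · exact ih H (List.mem_append_left _ (children_mem (vecs n) F _
              (vecs_mem n x y z w hsq) H hH (by simpa using hd) (by simpa using ht))) hHreal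
      · exact ih F (List.mem_append_right _ hF) hreal

end Pool.Agent.Lib.P42cda2
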