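import Pool.Agent.Lib.P42cda2.Table

set_option autoImplicit false

namespace Pool.Agent.Lib.P42cda2

def mkA (v : V3) : Fam :=
  ⟨v.2.2, [(v.2.2, 0, -v.1), (0, 2 * v.2.2, -2 * v.2.1), (0, 0, 1)]⟩
def mkB (v : V3) : Fam :=
  ⟨v.2.2 - v.2.1, [(v.2.2 - v.2.1, -(v.2.2 - v.1), v.2.1 - v.1), (0, v.2.2, -v.2.1), (0, -1, 1)]⟩
def mkC (v : V3) : Fam :=
  ⟨v.2.2, [(v.2.2, 2 * v.2.2, -(v.1 + 2 * v.2.1)), (0, 0, 1)]⟩

/-- from realisation of a raw family to the conclusion -/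
lemma finish (F G : Fam) (hG : nrm F = G) (hgood : dead G = true ∨ target G = true ∨ Good G)
    (a b c : ℤ) (ha : 0 < a) (hb : 0 < b) (hc : 0 < c) (hAt : ∀ n, 1 ≤ n → At n a b c)
    (h : Rlz F a b c) : Concl a b c := by
  have h1 := Rlz.nrm F a b c h
  rw [hG] at h1
  rcases hgood with h2 | h2 | h2
  · exact absurd h2 (fun h3 => dead_sound G a b c ha hb hc h1 h3)
  · exact target_sound G a b c h1 h2
  · exact h2 a b c ha hb hc hAt h1

lemma famA_good (v : V3) (hv : v ∈ VL3) (hz : 0 < v.2.2) (a b c : ℤ) (ha : 0 < a) (hb : 0 < b)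
    (hc : 0 < c) (hAt : ∀ n, 1 ≤ n → At n a b c) (h : Rlz (mkA v) a b c) : Concl a b c := by
  simp only [VL3, List.mem_cons, List.not_mem_nil, or_false] at hv
  rcases hv with rfl | rfl | rfl | rfl | rfl | rfl | rfl | rfl | rfl | rfl | rfl | rfl | rfl | rfl | rfl | rfl
  · exact absurd hz (by decide)
  · exact finish _ ⟨3, [(0, 0, 1), (0, 6, 0), (3, 0, 0)]⟩ (by decide +kernel) (Or.inl (by decide +kernel)) a b c ha hb hc hAt h
  · exact finish _ ⟨2, [(0, 0, 1), (0, 4, -2), (2, 0, 0)]⟩ (by decide +kernel) (Or.inr (Or.inr g2)) a b c ha hb hc hAt h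
  · exact finish _ ⟨1, [(0, 0, 1), (0, 2, -4), (1, 0, 0)]⟩ (by decide +kernel) (Or.inr (Or.inr g4)) a b c ha hb hc hAt h
  · exact finish _ ⟨2, [(0, 0, 1), (0, 1, -1), (2, 0, 0)]⟩ (by decide +kernel) (Or.inr (Or.inr g7)) a b c ha hb hc hAt h
  · exact absurd hz (by decide)
  · exact finish _ ⟨2, [(0, 0, 1), (0, 1, 0), (2, 0, -1)]⟩ (by decide +kernel) (Or.inr (Or.inr g9)) a b c ha hb hc hAt h
  · exact absurd hz (by decide)
  · exact finish _ ⟨2, [(0, 0, 1), (0, 1, -1), (2, 0, -1)]⟩ (by decide +kernel) (Or.inr (Or.inr g11)) a b c ha hb hc hAt h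
  · exact finish _ ⟨1, [(0, 0, 1), (0, 2, 0), (1, 0, -2)]⟩ (by decide +kernel) (Or.inr (Or.inr g17)) a b c ha hb hc hAt h
  · exact finish _ ⟨2, [(0, 0, 1), (0, 1, 0), (2, 0, -2)]⟩ (by decide +kernel) (Or.inr (Or.inr g19)) a b c ha hb hc hAt h
  · exact absurd hz (by decide)
  · exact finish _ ⟨2, [(0, 0, 1), (0, 4, -2), (2, 0, -2)]⟩ (by decide +kernel) (Or.inr (Or.inr g21)) a b c ha hb hc hAt h
  · exact absurd hz (by decide)
  · exact finish _ ⟨1, [(0, 0, 1), (0, 2, -4), (1, 0, -2)]⟩ (by decide +kernel) (Or.inr (Or.inr g25)) a b c ha hb hc hAt h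
  · exact absurd hz (by decide)

lemma famB_good (v : V3) (hv : v ∈ VL3) (hz : v.2.1 < v.2.2) (a b c : ℤ) (ha : 0 < a) (hb : 0 < b)
    (hc : 0 < c) (hAt : ∀ n, 1 ≤ n → At n a b c) (h : Rlz (mkB v) a b c) : Concl a b c := by
  simp only [VL3, List.mem_cons, List.not_mem_nil, or_false] at hv
  rcases hv with rfl | rfl | rfl | rfl | rfl | rfl | rfl | rfl | rfl | rfl | rfl | rfl | rfl | rfl | rfl | rfl
  · exact absurd hz (by decide)
  · exact finish _ ⟨3, [(0, -1, 1), (0, 3, 0), (3, -3, 0)]⟩ (by decide +kernel) (Or.inl (by decide +kernel)) a b c ha hb hc hAt h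
  · exact finish _ ⟨1, [(0, -1, 1), (0, 2, -1), (1, -2, 1)]⟩ (by decide +kernel) (Or.inr (Or.inr g26)) a b c ha hb hc hAt h
  · exact absurd hz (by decide)
  · exact absurd hz (by decide)
  · exact absurd hz (by decide)
  · exact finish _ ⟨2, [(0, -1, 1), (0, 2, 0), (2, -1, -1)]⟩ (by decide +kernel) (Or.inr (Or.inr g27)) a b c ha hb hc hAt h
  · exact absurd hz (by decide)
  · exact absurd hz (by decide)
  · exact finish _ ⟨1, [(0, -1, 1), (0, 1, 0), (1, 1, -2)]⟩ (by decide +kernel) (Or.inr (Or.inr g28)) a b c ha hb hc hAt h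
  · exact finish _ ⟨2, [(0, -1, 1), (0, 2, 0), (2, 0, -2)]⟩ (by decide +kernel) (Or.inr (Or.inr g29)) a b c ha hb hc hAt h
  · exact absurd hz (by decide)
  · exact finish _ ⟨1, [(0, -1, 1), (0, 2, -1), (1, 0, -1)]⟩ (by decide +kernel) (Or.inr (Or.inr g30)) a b c ha hb hc hAt h
  · exact absurd hz (by decide)
  · exact absurd hz (by decide)
  · exact absurd hz (by decide)

lemma famC_good (v : V3) (hv : v ∈ VL6) (hz : 0 < v.2.2) (a b c : ℤ) (ha : 0 < a) (hb : 0 < b)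
    (hc : 0 < c) (hAt : ∀ n, 1 ≤ n → At n a b c) (h : Rlz (mkC v) a b c) : Concl a b c := by
  simp only [VL6, List.mem_cons, List.not_mem_nil, or_false] at hv
  rcases hv with rfl | rfl | rfl | rfl | rfl | rfl | rfl | rfl | rfl | rfl | rfl | rfl | rfl | rfl | rfl | rfl | rfl | rfl | rfl | rfl | rfl | rfl | rfl | rfl | rfl | rfl | rfl | rfl | rfl
  · exact absurd hz (by decide)
  · exact finish _ ⟨6, [(0, 0, 1), (6, 12, 0)]⟩ (by decide +kernel) (Or.inl (by decide +kernel)) a b c ha hb hc hAt h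
  · exact finish _ ⟨4, [(0, 0, 1), (1, 2, -1)]⟩ (by decide +kernel) (Or.inr (Or.inr g42)) a b c ha hb hc hAt h
  · exact finish _ ⟨2, [(0, 0, 1), (2, 4, -8)]⟩ (by decide +kernel) (Or.inr (Or.inr g32)) a b c ha hb hc hAt h
  · exact finish _ ⟨4, [(0, 0, 1), (1, 2, -2)]⟩ (by decide +kernel) (Or.inr (Or.inr g43)) a b c ha hb hc hAt h
  · exact absurd hz (by decide)
  · exact finish _ ⟨3, [(0, 0, 1), (3, 6, -3)]⟩ (by decide +kernel) (Or.inl (by decide +kernel)) a b c ha hb hc hAt h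
  · exact finish _ ⟨5, [(0, 0, 1), (5, 10, -3)]⟩ (by decide +kernel) (Or.inr (Or.inr g33)) a b c ha hb hc hAt h
  · exact finish _ ⟨1, [(0, 0, 1), (1, 2, -7)]⟩ (by decide +kernel) (Or.inr (Or.inr g45)) a b c ha hb hc hAt h
  · exact finish _ ⟨5, [(0, 0, 1), (5, 10, -7)]⟩ (by decide +kernel) (Or.inr (Or.inr g34)) a b c ha hb hc hAt h
  · exact finish _ ⟨1, [(0, 0, 1), (1, 2, -11)]⟩ (by decide +kernel) (Or.inr (Or.inr g47)) a b c ha hb hc hAt h
  · exact finish _ ⟨3, [(0, 0, 1), (3, 6, -11)]⟩ (by decide +kernel) (Or.inl (by decide +kernel)) a b c ha hb hc hAt h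
  · exact finish _ ⟨4, [(0, 0, 1), (4, 8, -2)]⟩ (by decide +kernel) (Or.inr (Or.inr g36)) a b c ha hb hc hAt h
  · exact absurd hz (by decide)
  · exact finish _ ⟨4, [(0, 0, 1), (4, 8, -10)]⟩ (by decide +kernel) (Or.inr (Or.inr g37)) a b c ha hb hc hAt h
  · exact finish _ ⟨1, [(0, 0, 1), (1, 2, -5)]⟩ (by decide +kernel) (Or.inr (Or.inr g38)) a b c ha hb hc hAt h
  · exact finish _ ⟨5, [(0, 0, 1), (5, 10, -5)]⟩ (by decide +kernel) (Or.inr (Or.inr g39)) a b c ha hb hc hAt h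
  · exact finish _ ⟨3, [(0, 0, 1), (3, 6, -9)]⟩ (by decide +kernel) (Or.inl (by decide +kernel)) a b c ha hb hc hAt h
  · exact finish _ ⟨1, [(0, 0, 1), (1, 2, -13)]⟩ (by decide +kernel) (Or.inr (Or.inr g40)) a b c ha hb hc hAt h
  · exact finish _ ⟨2, [(0, 0, 1), (2, 4, -4)]⟩ (by decide +kernel) (Or.inr (Or.inr g41)) a b c ha hb hc hAt h
  · exact finish _ ⟨4, [(0, 0, 1), (1, 2, -1)]⟩ (by decide +kernel) (Or.inr (Or.inr g42)) a b c ha hb hc hAt h
  · exact absurd hz (by decide)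
  · exact finish _ ⟨4, [(0, 0, 1), (1, 2, -2)]⟩ (by decide +kernel) (Or.inr (Or.inr g43)) a b c ha hb hc hAt h
  · exact absurd hz (by decide)
  · exact finish _ ⟨2, [(0, 0, 1), (2, 4, -12)]⟩ (by decide +kernel) (Or.inr (Or.inr g44)) a b c ha hb hc hAt h
  · exact finish _ ⟨1, [(0, 0, 1), (1, 2, -7)]⟩ (by decide +kernel) (Or.inr (Or.inr g45)) a b c ha hb hc hAt h
  · exact finish _ ⟨3, [(0, 0, 1), (3, 6, -7)]⟩ (by decide +kernel) (Or.inr (Or.inr g46)) a b c ha hb hc hAt h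
  · exact finish _ ⟨1, [(0, 0, 1), (1, 2, -11)]⟩ (by decide +kernel) (Or.inr (Or.inr g47)) a b c ha hb hc hAt h
  · exact absurd hz (by decide)

end Pool.Agent.Lib.P42cda2
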