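import Mathlib

set_option autoImplicit false

/-!
Verified solver for equations `∑ c_i * 4 ^ e_i = 0` in unknown exponents `e_i`, carrying along a
vector-valued sum `∑ 4 ^ e_i • v_i`.
-/

namespace Pool.Agent.Lib.P42cda2

/-- integer triples -/
abbrev V3 := ℤ × ℤ × ℤ

def vadd (u v : V3) : V3 := (u.1 + v.1, u.2.1 + v.2.1, u.2.2 + v.2.2)
def vsub (u v : V3) : V3 := (u.1 - v.1, u.2.1 - v.2.1, u.2.2 - v.2.2)
def vsmul (k : ℤ) (u : V3) : V3 := (k * u.1, k * u.2.1, k * u.2.2)

/-- all ways to remove one element from a list -/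
def picks {α : Type} : List α → List (α × List α)
  | [] => []
  | a :: R => (a, R) :: (picks R).map (fun p => (p.1, a :: p.2))

/-- the solver: see `solve_sound` -/
def solve : ℕ → ℤ → ℤ → V3 → List (ℤ × V3) → List (List V3)
  | 0, _, _, acc, R => [acc :: R.map Prod.snd]
  | k + 1, S, p, acc, R =>
    if S = 0 then
      match R with
      | [] => [[acc]]
      | b :: R' => (picks (b :: R')).flatMap
          (fun q => (solve k q.1.1 1 q.1.2 q.2).map (fun L => acc :: L))
    else
      match R with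
      | [] => []
      | b :: R' =>
        (if S % 4 = 0 then solve k (S / 4) (4 * p) acc (b :: R') else []) ++
        (picks (b :: R')).flatMap (fun q => solve k (S + q.1.1) p (vadd acc (vsmul p q.1.2)) q.2)

def solveTop (k : ℕ) (R : List (ℤ × V3)) : List (List V3) :=
  match R with
  | [] => [[]]
  | b :: R' => (picks (b :: R')).flatMap (fun q => solve k q.1.1 1 q.1.2 q.2)

/-- `RepGe m R S W`: exponents `e_i ≥ m` exist with `∑ c_i 4^{e_i} = S` and `∑ 4^{e_i} v_i = W`. -/
def RepGe (m : ℕ) : List (ℤ × V3) → ℤ → V3 → Prop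
  | [], S, W => S = 0 ∧ W = (0, 0, 0)
  | q :: R, S, W => ∃ e, m ≤ e ∧ RepGe m R (S - q.1 * 4 ^ e) (vsub W (vsmul (4 ^ e) q.2))

/-- `Rep L W`: exponents `e_i` exist with `∑ 4^{e_i} v_i = W`. -/
def Rep : List V3 → V3 → Prop
  | [], W => W = (0, 0, 0)
  | v :: L, W => ∃ e : ℕ, Rep L (vsub W (vsmul (4 ^ e) v))

lemma vsub_comm3 (W a b : V3) : vsub (vsub W a) b = vsub (vsub W b) a := by
  simp [vsub]; refine ⟨by ring, by ring, by ring⟩

lemma RepGe.mono {m m' : ℕ} (h : m' ≤ m) : ∀ (R : List (ℤ × V3)) (S : ℤ) (W : V3),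
    RepGe m R S W → RepGe m' R S W
  | [], _, _, hR => hR
  | _ :: R, _, _, ⟨e, he, hR⟩ => ⟨e, le_trans h he, RepGe.mono h R _ _ hR⟩

lemma RepGe.toRep {m : ℕ} : ∀ (R : List (ℤ × V3)) (S : ℤ) (W : V3),
    RepGe m R S W → Rep (R.map Prod.snd) W
  | [], _, _, hR => hR.2
  | _ :: R, _, _, ⟨e, _, hR⟩ => ⟨e, RepGe.toRep R _ _ hR⟩

lemma RepGe.dvd {m : ℕ} : ∀ (R : List (ℤ × V3)) (S : ℤ) (W : V3),
    RepGe m R S W → (4 : ℤ) ^ m ∣ S
  | [], _, _, hR => by rw [hR.1]; exact dvd_zero _
  | q :: R, S, W, ⟨e, he, hR⟩ => by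
      have h1 := RepGe.dvd R _ _ hR
      have h2 : (4 : ℤ) ^ m ∣ q.1 * 4 ^ e := Dvd.dvd.mul_left (pow_dvd_pow 4 he) _
      have h3 := dvd_add h1 h2
      simpa using h3

/-- either all exponents are larger than `m`, or one of the terms has exponent exactly `m` -/
lemma RepGe.cases {m : ℕ} : ∀ (R : List (ℤ × V3)) (S : ℤ) (W : V3),
    RepGe m R S W → RepGe (m + 1) R S W ∨
      ∃ q ∈ picks R, RepGe m q.2 (S - q.1.1 * 4 ^ m) (vsub W (vsmul (4 ^ m) q.1.2))
  | [], _, _, hR => Or.inl hR
  | a :: R, S, W, ⟨e, he, hR⟩ => by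
      rcases Nat.eq_or_lt_of_le he with h | h
      · subst h
        right
        exact ⟨(a, R), by simp [picks], hR⟩
      · rcases RepGe.cases R _ _ hR with h1 | ⟨q, hq, h1⟩
        · left
          exact ⟨e, h, h1⟩
        · right
          refine ⟨(q.1, a :: q.2), ?_, ?_⟩
          · simp only [picks, List.mem_cons, List.mem_map]
            right
            exact ⟨q, hq, rfl⟩
          · refine ⟨e, he, ?_⟩
            have e1 : S - q.1.1 * 4 ^ m - a.1 * 4 ^ e = S - a.1 * 4 ^ e - q.1.1 * 4 ^ m := by ring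
            show RepGe m q.2 (S - q.1.1 * 4 ^ m - a.1 * 4 ^ e)
              (vsub (vsub W (vsmul (4 ^ m) q.1.2)) (vsmul (4 ^ e) a.2))
            rw [e1, vsub_comm3]
            exact h1

lemma RepGe.insert : ∀ (R : List (ℤ × V3)) (S : ℤ) (W : V3) (m s : ℕ), m ≤ s →
    ∀ q ∈ picks R, RepGe s q.2 (S - q.1.1 * 4 ^ s) (vsub W (vsmul (4 ^ s) q.1.2)) →
    RepGe m R S W
  | [], _, _, _, _, _, q, hq, _ => by simp [picks] at hq
  | a :: R, S, W, m, s, hms, q, hq, h => by
      simp only [picks, List.mem_cons, List.mem_map] at hq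
      rcases hq with rfl | ⟨q', hq', rfl⟩
      · exact ⟨s, hms, RepGe.mono hms _ _ _ h⟩
      · obtain ⟨e, he, h⟩ := h
        refine ⟨e, le_trans hms he, ?_⟩
        apply RepGe.insert R _ _ m s hms q' hq'
        have e1 : S - a.1 * 4 ^ e - q'.1.1 * 4 ^ s = S - q'.1.1 * 4 ^ s - a.1 * 4 ^ e := by ring
        rw [e1, vsub_comm3]
        exact h

/-- pick the term of minimal exponent -/
lemma RepGe.min_exists : ∀ (R : List (ℤ × V3)) (S : ℤ) (W : V3) (m : ℕ), R ≠ [] →
    RepGe m R S W →
    ∃ s, m ≤ s ∧ ∃ q ∈ picks R, RepGe s q.2 (S - q.1.1 * 4 ^ s) (vsub W (vsmul (4 ^ s) q.1.2))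
  | [], _, _, _, h, _ => absurd rfl h
  | [a], S, W, m, _, ⟨e, he, hR⟩ => ⟨e, he, (a, []), by simp [picks], hR⟩
  | a :: b :: R, S, W, m, _, ⟨e, he, hR⟩ => by
      obtain ⟨s, hs, q, hq, h1⟩ := RepGe.min_exists (b :: R) _ _ m (by simp) hR
      by_cases hes : e ≤ s
      · -- a has the minimal exponent
        exact ⟨e, he, (a, b :: R), by simp [picks], RepGe.insert (b :: R) _ _ e s hes q hq h1⟩
      · refine ⟨s, hs, (q.1, a :: q.2), ?_, ?_⟩
        · rw [picks]
          simp only [List.mem_cons, List.mem_map]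
          right
          exact ⟨q, hq, rfl⟩
        · refine ⟨e, by omega, ?_⟩
          show RepGe s q.2 (S - q.1.1 * 4 ^ s - a.1 * 4 ^ e)
            (vsub (vsub W (vsmul (4 ^ s) q.1.2)) (vsmul (4 ^ e) a.2))
          have e1 : S - q.1.1 * 4 ^ s - a.1 * 4 ^ e = S - a.1 * 4 ^ e - q.1.1 * 4 ^ s := by ring
          rw [e1, vsub_comm3]
          exact h1

lemma solve_sound : ∀ (k : ℕ) (S p : ℤ) (acc : V3) (R : List (ℤ × V3)) (s off : ℕ) (W : V3),
    p = 4 ^ off → RepGe (s + off) R (-(S * 4 ^ (s + off))) (vsub W (vsmul (4 ^ s) acc)) →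
    ∃ L ∈ solve k S p acc R, Rep L W
  | 0, S, p, acc, R, s, off, W, hp, h => by
      refine ⟨acc :: R.map Prod.snd, by simp [solve], s, ?_⟩
      exact h.toRep
  | k + 1, S, p, acc, R, s, off, W, hp, h => by
      unfold solve
      by_cases hS : S = 0
      · simp only [hS, if_true]
        subst hS
        cases R with
        | nil =>
          refine ⟨[acc], by simp, s, ?_⟩
          exact h.2
        | cons b R' =>
          obtain ⟨s', hs', q, hq, h1⟩ := RepGe.min_exists (b :: R') _ _ _ (by simp) h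
          have h2 : RepGe (s' + 0) q.2 (-(q.1.1 * 4 ^ (s' + 0)))
              (vsub (vsub W (vsmul (4 ^ s) acc)) (vsmul (4 ^ s') q.1.2)) := by
            have e1 : -((0 : ℤ) * 4 ^ (s + off)) - q.1.1 * 4 ^ s' = -(q.1.1 * 4 ^ (s' + 0)) := by
              simp
            rw [e1] at h1
            exact h1
          obtain ⟨L, hL, hrep⟩ := solve_sound k q.1.1 1 q.1.2 q.2 s' 0
            (vsub W (vsmul (4 ^ s) acc)) (by simp) h2
          refine ⟨acc :: L, ?_, s, hrep⟩
          simp only [List.mem_flatMap, List.mem_map]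
          exact ⟨q, hq, L, hL, rfl⟩
      · simp only [hS, if_false]
        cases R with
        | nil =>
          exfalso
          have h1 := h.1
          have : S * 4 ^ (s + off) = 0 := by linarith
          rcases mul_eq_zero.mp this with h2 | h2
          · exact hS h2
          · exact absurd h2 (by positivity)
        | cons b R' =>
          rcases RepGe.cases (b :: R') _ _ h with h1 | ⟨q, hq, h1⟩
          · have hd := h1.dvd
            have hd4 : (4 : ℤ) ∣ S := by
              have h3 : (4 : ℤ) ^ (s + off) * 4 ∣ (4 : ℤ) ^ (s + off) * S := by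
                have h4 : -(S * 4 ^ (s + off)) = -((4 : ℤ) ^ (s + off) * S) := by ring
                rw [h4, pow_succ] at hd
                exact (dvd_neg.mp hd)
              exact (mul_dvd_mul_iff_left (by positivity)).mp h3
            have hmod : S % 4 = 0 := Int.emod_eq_zero_of_dvd hd4
            obtain ⟨T, hT⟩ := hd4
            have hdiv : S / 4 = T := by rw [hT]; simp
            have h2 : RepGe (s + (off + 1)) (b :: R') (-((S / 4) * 4 ^ (s + (off + 1))))
                (vsub W (vsmul (4 ^ s) acc)) := by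
              have e1 : -((S / 4) * 4 ^ (s + (off + 1))) = -(S * 4 ^ (s + off)) := by
                rw [hdiv, hT]; ring
              rw [e1]
              exact h1
            obtain ⟨L, hL, hrep⟩ := solve_sound k (S / 4) (4 * p) acc (b :: R') s (off + 1) W
              (by rw [hp]; ring) h2
            refine ⟨L, ?_, hrep⟩
            rw [List.mem_append]
            left
            rw [if_pos hmod]
            exact hL
          · have h2 : RepGe (s + off) q.2 (-((S + q.1.1) * 4 ^ (s + off)))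
                (vsub W (vsmul (4 ^ s) (vadd acc (vsmul p q.1.2)))) := by
              have e1 : -((S + q.1.1) * 4 ^ (s + off)) =
                  -(S * 4 ^ (s + off)) - q.1.1 * 4 ^ (s + off) := by ring
              have e2 : vsub W (vsmul (4 ^ s) (vadd acc (vsmul p q.1.2))) =
                  vsub (vsub W (vsmul (4 ^ s) acc)) (vsmul (4 ^ (s + off)) q.1.2) := by
                rw [hp]
                simp only [vsub, vsmul, vadd, Prod.mk.injEq]
                refine ⟨by ring, by ring, by ring⟩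
              rw [e1, e2]
              exact h1
            obtain ⟨L, hL, hrep⟩ := solve_sound k (S + q.1.1) p (vadd acc (vsmul p q.1.2)) q.2
              s off W hp h2
            refine ⟨L, ?_, hrep⟩
            rw [List.mem_append]
            right
            rw [List.mem_flatMap]
            exact ⟨q, hq, hL⟩

lemma solveTop_sound (k : ℕ) (R : List (ℤ × V3)) (W : V3) (h : RepGe 0 R 0 W) :
    ∃ L ∈ solveTop k R, Rep L W := by
  cases R with
  | nil => exact ⟨[], by simp [solveTop], h.2⟩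
  | cons b R' =>
    obtain ⟨s', hs', q, hq, h1⟩ := RepGe.min_exists (b :: R') _ _ _ (by simp) h
    have h2 : RepGe (s' + 0) q.2 (-(q.1.1 * 4 ^ (s' + 0))) (vsub W (vsmul (4 ^ s') q.1.2)) := by
      have e1 : (0 : ℤ) - q.1.1 * 4 ^ s' = -(q.1.1 * 4 ^ (s' + 0)) := by simp
      rw [e1] at h1
      exact h1
    obtain ⟨L, hL, hrep⟩ := solve_sound k q.1.1 1 q.1.2 q.2 s' 0 W (by simp) h2
    refine ⟨L, ?_, hrep⟩
    simp only [solveTop, List.mem_flatMap]
    exact ⟨q, hq, hL⟩

end Pool.Agent.Lib.P42cda2
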