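import Pool.Agent.Lib.P42cda2.Fam

set_option autoImplicit false

/-! Explicit lists of the vectors `(x,y,z)` of naturals with `n^2 - x^2 - y^2 - z^2` a square. -/

namespace Pool.Agent.Lib.P42cda2

def VL23 : List V3 :=
  [(0, 0, 0), (0, 0, 23), (0, 3, 6), (0, 3, 14), (0, 3, 18), (0, 3, 22), (0, 6, 3), (0, 6, 13),
  (0, 6, 18), (0, 6, 22), (0, 13, 6), (0, 13, 18), (0, 14, 3), (0, 14, 18), (0, 18, 3),
  (0, 18, 6), (0, 18, 13), (0, 18, 14), (0, 22, 3), (0, 22, 6), (0, 23, 0), (1, 4, 16),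
  (1, 8, 8), (1, 8, 20), (1, 16, 4), (1, 16, 16), (1, 20, 8), (2, 2, 11), (2, 2, 20), (2, 4, 5),
  (2, 4, 22), (2, 5, 4), (2, 5, 10), (2, 5, 20), (2, 5, 22), (2, 8, 10), (2, 8, 19), (2, 10, 5),
  (2, 10, 8), (2, 10, 13), (2, 10, 16), (2, 10, 19), (2, 10, 20), (2, 11, 2), (2, 11, 20),
  (2, 13, 10), (2, 13, 16), (2, 16, 10), (2, 16, 13), (2, 19, 8), (2, 19, 10), (2, 20, 2),
  (2, 20, 5), (2, 20, 10), (2, 20, 11), (2, 22, 4), (2, 22, 5), (3, 0, 6), (3, 0, 14),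
  (3, 0, 18), (3, 0, 22), (3, 6, 0), (3, 6, 22), (3, 14, 0), (3, 14, 18), (3, 18, 0),
  (3, 18, 14), (3, 22, 0), (3, 22, 6), (4, 1, 16), (4, 2, 5), (4, 2, 22), (4, 5, 2), (4, 5, 22),
  (4, 6, 6), (4, 6, 21), (4, 7, 8), (4, 7, 20), (4, 8, 7), (4, 8, 20), (4, 11, 14), (4, 12, 12),
  (4, 12, 15), (4, 14, 11), (4, 14, 14), (4, 15, 12), (4, 16, 1), (4, 16, 16), (4, 20, 7),
  (4, 20, 8), (4, 21, 6), (4, 22, 2), (4, 22, 5), (5, 2, 4), (5, 2, 10), (5, 2, 20), (5, 2, 22),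
  (5, 4, 2), (5, 4, 22), (5, 6, 12), (5, 6, 18), (5, 10, 2), (5, 10, 20), (5, 12, 6),
  (5, 12, 18), (5, 18, 6), (5, 18, 12), (5, 20, 2), (5, 20, 10), (5, 22, 2), (5, 22, 4),
  (6, 0, 3), (6, 0, 13), (6, 0, 18), (6, 0, 22), (6, 3, 0), (6, 3, 22), (6, 4, 6), (6, 4, 21),
  (6, 5, 12), (6, 5, 18), (6, 6, 4), (6, 6, 21), (6, 12, 5), (6, 12, 18), (6, 13, 0),
  (6, 13, 18), (6, 18, 0), (6, 18, 5), (6, 18, 12), (6, 18, 13), (6, 21, 4), (6, 21, 6),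
  (6, 22, 0), (6, 22, 3), (7, 4, 8), (7, 4, 20), (7, 8, 4), (7, 8, 20), (7, 20, 4), (7, 20, 8),
  (8, 1, 8), (8, 1, 20), (8, 2, 10), (8, 2, 19), (8, 4, 7), (8, 4, 20), (8, 7, 4), (8, 7, 20),
  (8, 8, 1), (8, 8, 20), (8, 10, 2), (8, 10, 13), (8, 10, 14), (8, 10, 19), (8, 13, 10),
  (8, 13, 14), (8, 14, 10), (8, 14, 13), (8, 19, 2), (8, 19, 10), (8, 20, 1), (8, 20, 4),
  (8, 20, 7), (8, 20, 8), (10, 2, 5), (10, 2, 8), (10, 2, 13), (10, 2, 16), (10, 2, 19),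
  (10, 2, 20), (10, 5, 2), (10, 5, 20), (10, 8, 2), (10, 8, 13), (10, 8, 14), (10, 8, 19),
  (10, 13, 2), (10, 13, 8), (10, 13, 14), (10, 13, 16), (10, 14, 8), (10, 14, 13), (10, 16, 2),
  (10, 16, 13), (10, 19, 2), (10, 19, 8), (10, 20, 2), (10, 20, 5), (11, 2, 2), (11, 2, 20),
  (11, 4, 14), (11, 14, 4), (11, 14, 14), (11, 20, 2), (12, 4, 12), (12, 4, 15), (12, 5, 6),
  (12, 5, 18), (12, 6, 5), (12, 6, 18), (12, 12, 4), (12, 12, 15), (12, 15, 4), (12, 15, 12),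
  (12, 18, 5), (12, 18, 6), (13, 0, 6), (13, 0, 18), (13, 2, 10), (13, 2, 16), (13, 6, 0),
  (13, 6, 18), (13, 8, 10), (13, 8, 14), (13, 10, 2), (13, 10, 8), (13, 10, 14), (13, 10, 16),
  (13, 14, 8), (13, 14, 10), (13, 16, 2), (13, 16, 10), (13, 18, 0), (13, 18, 6), (14, 0, 3),
  (14, 0, 18), (14, 3, 0), (14, 3, 18), (14, 4, 11), (14, 4, 14), (14, 8, 10), (14, 8, 13),
  (14, 10, 8), (14, 10, 13), (14, 11, 4), (14, 11, 14), (14, 13, 8), (14, 13, 10), (14, 14, 4),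
  (14, 14, 11), (14, 18, 0), (14, 18, 3), (15, 4, 12), (15, 12, 4), (15, 12, 12), (16, 1, 4),
  (16, 1, 16), (16, 2, 10), (16, 2, 13), (16, 4, 1), (16, 4, 16), (16, 10, 2), (16, 10, 13),
  (16, 13, 2), (16, 13, 10), (16, 16, 1), (16, 16, 4), (18, 0, 3), (18, 0, 6), (18, 0, 13),
  (18, 0, 14), (18, 3, 0), (18, 3, 14), (18, 5, 6), (18, 5, 12), (18, 6, 0), (18, 6, 5),
  (18, 6, 12), (18, 6, 13), (18, 12, 5), (18, 12, 6), (18, 13, 0), (18, 13, 6), (18, 14, 0),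
  (18, 14, 3), (19, 2, 8), (19, 2, 10), (19, 8, 2), (19, 8, 10), (19, 10, 2), (19, 10, 8),
  (20, 1, 8), (20, 2, 2), (20, 2, 5), (20, 2, 10), (20, 2, 11), (20, 4, 7), (20, 4, 8),
  (20, 5, 2), (20, 5, 10), (20, 7, 4), (20, 7, 8), (20, 8, 1), (20, 8, 4), (20, 8, 7),
  (20, 8, 8), (20, 10, 2), (20, 10, 5), (20, 11, 2), (21, 4, 6), (21, 6, 4), (21, 6, 6),
  (22, 0, 3), (22, 0, 6), (22, 2, 4), (22, 2, 5), (22, 3, 0), (22, 3, 6), (22, 4, 2), (22, 4, 5),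
  (22, 5, 2), (22, 5, 4), (22, 6, 0), (22, 6, 3), (23, 0, 0)]

theorem vecs_23 : vecs 23 = VL23 := by decide +kernel

def VL25 : List V3 :=
  [(0, 0, 0), (0, 0, 7), (0, 0, 15), (0, 0, 20), (0, 0, 24), (0, 0, 25), (0, 7, 0), (0, 7, 24),
  (0, 9, 12), (0, 9, 20), (0, 12, 9), (0, 12, 15), (0, 12, 16), (0, 12, 20), (0, 15, 0),
  (0, 15, 12), (0, 15, 16), (0, 15, 20), (0, 16, 12), (0, 16, 15), (0, 20, 0), (0, 20, 9),
  (0, 20, 12), (0, 20, 15), (0, 24, 0), (0, 24, 7), (0, 25, 0), (2, 2, 16), (2, 2, 19),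
  (2, 3, 6), (2, 3, 24), (2, 4, 11), (2, 4, 22), (2, 5, 14), (2, 5, 20), (2, 6, 3), (2, 6, 12),
  (2, 6, 21), (2, 6, 24), (2, 8, 14), (2, 8, 19), (2, 10, 11), (2, 10, 20), (2, 11, 4),
  (2, 11, 10), (2, 11, 20), (2, 11, 22), (2, 12, 6), (2, 12, 21), (2, 13, 14), (2, 13, 16),
  (2, 14, 5), (2, 14, 8), (2, 14, 13), (2, 14, 16), (2, 14, 19), (2, 14, 20), (2, 16, 2),
  (2, 16, 13), (2, 16, 14), (2, 16, 19), (2, 19, 2), (2, 19, 8), (2, 19, 14), (2, 19, 16),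
  (2, 20, 5), (2, 20, 10), (2, 20, 11), (2, 20, 14), (2, 21, 6), (2, 21, 12), (2, 22, 4),
  (2, 22, 11), (2, 24, 3), (2, 24, 6), (3, 2, 6), (3, 2, 24), (3, 6, 2), (3, 6, 16), (3, 6, 18),
  (3, 6, 24), (3, 16, 6), (3, 16, 18), (3, 18, 6), (3, 18, 16), (3, 24, 2), (3, 24, 6),
  (4, 2, 11), (4, 2, 22), (4, 4, 8), (4, 4, 23), (4, 5, 10), (4, 5, 22), (4, 8, 4), (4, 8, 16),
  (4, 8, 17), (4, 8, 23), (4, 10, 5), (4, 10, 22), (4, 11, 2), (4, 11, 22), (4, 16, 8),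
  (4, 16, 17), (4, 17, 8), (4, 17, 16), (4, 22, 2), (4, 22, 5), (4, 22, 10), (4, 22, 11),
  (4, 23, 4), (4, 23, 8), (5, 2, 14), (5, 2, 20), (5, 4, 10), (5, 4, 22), (5, 10, 4),
  (5, 10, 10), (5, 10, 20), (5, 10, 22), (5, 14, 2), (5, 14, 20), (5, 20, 2), (5, 20, 10),
  (5, 20, 14), (5, 22, 4), (5, 22, 10), (6, 2, 3), (6, 2, 12), (6, 2, 21), (6, 2, 24), (6, 3, 2),
  (6, 3, 16), (6, 3, 18), (6, 3, 24), (6, 11, 12), (6, 11, 18), (6, 12, 2), (6, 12, 11),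
  (6, 12, 18), (6, 12, 21), (6, 16, 3), (6, 16, 18), (6, 18, 3), (6, 18, 11), (6, 18, 12),
  (6, 18, 16), (6, 21, 2), (6, 21, 12), (6, 24, 2), (6, 24, 3), (7, 0, 0), (7, 0, 24),
  (7, 8, 16), (7, 16, 8), (7, 16, 16), (7, 24, 0), (8, 2, 14), (8, 2, 19), (8, 4, 4), (8, 4, 16),
  (8, 4, 17), (8, 4, 23), (8, 7, 16), (8, 10, 10), (8, 10, 19), (8, 13, 14), (8, 14, 2),
  (8, 14, 13), (8, 14, 14), (8, 14, 19), (8, 16, 4), (8, 16, 7), (8, 16, 16), (8, 16, 17),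
  (8, 17, 4), (8, 17, 16), (8, 19, 2), (8, 19, 10), (8, 19, 14), (8, 23, 4), (9, 0, 12),
  (9, 0, 20), (9, 12, 0), (9, 12, 12), (9, 12, 16), (9, 12, 20), (9, 16, 12), (9, 20, 0),
  (9, 20, 12), (10, 2, 11), (10, 2, 20), (10, 4, 5), (10, 4, 22), (10, 5, 4), (10, 5, 10),
  (10, 5, 20), (10, 5, 22), (10, 8, 10), (10, 8, 19), (10, 10, 5), (10, 10, 8), (10, 10, 13),
  (10, 10, 16), (10, 10, 19), (10, 10, 20), (10, 11, 2), (10, 11, 20), (10, 13, 10),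
  (10, 13, 16), (10, 16, 10), (10, 16, 13), (10, 19, 8), (10, 19, 10), (10, 20, 2), (10, 20, 5),
  (10, 20, 10), (10, 20, 11), (10, 22, 4), (10, 22, 5), (11, 2, 4), (11, 2, 10), (11, 2, 20),
  (11, 2, 22), (11, 4, 2), (11, 4, 22), (11, 6, 12), (11, 6, 18), (11, 10, 2), (11, 10, 20),
  (11, 12, 6), (11, 12, 18), (11, 18, 6), (11, 18, 12), (11, 20, 2), (11, 20, 10), (11, 22, 2),
  (11, 22, 4), (12, 0, 9), (12, 0, 15), (12, 0, 16), (12, 0, 20), (12, 2, 6), (12, 2, 21),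
  (12, 6, 2), (12, 6, 11), (12, 6, 18), (12, 6, 21), (12, 9, 0), (12, 9, 12), (12, 9, 16),
  (12, 9, 20), (12, 11, 6), (12, 11, 18), (12, 12, 9), (12, 12, 16), (12, 15, 0), (12, 15, 16),
  (12, 16, 0), (12, 16, 9), (12, 16, 12), (12, 16, 15), (12, 18, 6), (12, 18, 11), (12, 20, 0),
  (12, 20, 9), (12, 21, 2), (12, 21, 6), (13, 2, 14), (13, 2, 16), (13, 8, 14), (13, 10, 10),
  (13, 10, 16), (13, 14, 2), (13, 14, 8), (13, 14, 14), (13, 14, 16), (13, 16, 2), (13, 16, 10),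
  (13, 16, 14), (14, 2, 5), (14, 2, 8), (14, 2, 13), (14, 2, 16), (14, 2, 19), (14, 2, 20),
  (14, 5, 2), (14, 5, 20), (14, 8, 2), (14, 8, 13), (14, 8, 14), (14, 8, 19), (14, 13, 2),
  (14, 13, 8), (14, 13, 14), (14, 13, 16), (14, 14, 8), (14, 14, 13), (14, 16, 2), (14, 16, 13),
  (14, 19, 2), (14, 19, 8), (14, 20, 2), (14, 20, 5), (15, 0, 0), (15, 0, 12), (15, 0, 16),
  (15, 0, 20), (15, 12, 0), (15, 12, 16), (15, 16, 0), (15, 16, 12), (15, 20, 0), (16, 0, 12),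
  (16, 0, 15), (16, 2, 2), (16, 2, 13), (16, 2, 14), (16, 2, 19), (16, 3, 6), (16, 3, 18),
  (16, 4, 8), (16, 4, 17), (16, 6, 3), (16, 6, 18), (16, 7, 8), (16, 7, 16), (16, 8, 4),
  (16, 8, 7), (16, 8, 16), (16, 8, 17), (16, 9, 12), (16, 10, 10), (16, 10, 13), (16, 12, 0),
  (16, 12, 9), (16, 12, 12), (16, 12, 15), (16, 13, 2), (16, 13, 10), (16, 13, 14), (16, 14, 2),
  (16, 14, 13), (16, 15, 0), (16, 15, 12), (16, 16, 7), (16, 16, 8), (16, 17, 4), (16, 17, 8),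
  (16, 18, 3), (16, 18, 6), (16, 19, 2), (17, 4, 8), (17, 4, 16), (17, 8, 4), (17, 8, 16),
  (17, 16, 4), (17, 16, 8), (18, 3, 6), (18, 3, 16), (18, 6, 3), (18, 6, 11), (18, 6, 12),
  (18, 6, 16), (18, 11, 6), (18, 11, 12), (18, 12, 6), (18, 12, 11), (18, 16, 3), (18, 16, 6),
  (19, 2, 2), (19, 2, 8), (19, 2, 14), (19, 2, 16), (19, 8, 2), (19, 8, 10), (19, 8, 14),
  (19, 10, 8), (19, 10, 10), (19, 14, 2), (19, 14, 8), (19, 16, 2), (20, 0, 0), (20, 0, 9),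
  (20, 0, 12), (20, 0, 15), (20, 2, 5), (20, 2, 10), (20, 2, 11), (20, 2, 14), (20, 5, 2),
  (20, 5, 10), (20, 5, 14), (20, 9, 0), (20, 9, 12), (20, 10, 2), (20, 10, 5), (20, 10, 10),
  (20, 10, 11), (20, 11, 2), (20, 11, 10), (20, 12, 0), (20, 12, 9), (20, 14, 2), (20, 14, 5),
  (20, 15, 0), (21, 2, 6), (21, 2, 12), (21, 6, 2), (21, 6, 12), (21, 12, 2), (21, 12, 6),
  (22, 2, 4), (22, 2, 11), (22, 4, 2), (22, 4, 5), (22, 4, 10), (22, 4, 11), (22, 5, 4),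
  (22, 5, 10), (22, 10, 4), (22, 10, 5), (22, 11, 2), (22, 11, 4), (23, 4, 4), (23, 4, 8),
  (23, 8, 4), (24, 0, 0), (24, 0, 7), (24, 2, 3), (24, 2, 6), (24, 3, 2), (24, 3, 6), (24, 6, 2),
  (24, 6, 3), (24, 7, 0), (25, 0, 0)]

theorem vecs_25 : vecs 25 = VL25 := by decide +kernel

def VL26 : List V3 :=
  [(0, 0, 0), (0, 0, 10), (0, 0, 24), (0, 0, 26), (0, 6, 8), (0, 6, 24), (0, 8, 6), (0, 8, 24),
  (0, 10, 0), (0, 10, 24), (0, 24, 0), (0, 24, 6), (0, 24, 8), (0, 24, 10), (0, 26, 0),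
  (1, 1, 7), (1, 1, 25), (1, 3, 15), (1, 3, 21), (1, 5, 5), (1, 5, 11), (1, 5, 17), (1, 5, 19),
  (1, 5, 23), (1, 5, 25), (1, 7, 1), (1, 7, 25), (1, 11, 5), (1, 11, 23), (1, 15, 3),
  (1, 15, 15), (1, 15, 21), (1, 17, 5), (1, 17, 19), (1, 19, 5), (1, 19, 17), (1, 21, 3),
  (1, 21, 15), (1, 23, 5), (1, 23, 11), (1, 25, 1), (1, 25, 5), (1, 25, 7), (2, 4, 16),
  (2, 4, 20), (2, 16, 4), (2, 16, 20), (2, 20, 4), (2, 20, 16), (3, 1, 15), (3, 1, 21),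
  (3, 9, 15), (3, 9, 19), (3, 15, 1), (3, 15, 9), (3, 15, 19), (3, 15, 21), (3, 19, 9),
  (3, 19, 15), (3, 21, 1), (3, 21, 15), (4, 2, 16), (4, 2, 20), (4, 8, 14), (4, 8, 20),
  (4, 14, 8), (4, 14, 20), (4, 16, 2), (4, 16, 20), (4, 20, 2), (4, 20, 8), (4, 20, 14),
  (4, 20, 16), (5, 1, 5), (5, 1, 11), (5, 1, 17), (5, 1, 19), (5, 1, 23), (5, 1, 25), (5, 5, 1),
  (5, 5, 25), (5, 11, 1), (5, 11, 13), (5, 11, 19), (5, 11, 23), (5, 13, 11), (5, 13, 19),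
  (5, 17, 1), (5, 17, 19), (5, 19, 1), (5, 19, 11), (5, 19, 13), (5, 19, 17), (5, 23, 1),
  (5, 23, 11), (5, 25, 1), (5, 25, 5), (6, 0, 8), (6, 0, 24), (6, 8, 0), (6, 8, 24), (6, 24, 0),
  (6, 24, 8), (7, 1, 1), (7, 1, 25), (7, 7, 7), (7, 7, 17), (7, 7, 23), (7, 13, 13), (7, 13, 17),
  (7, 17, 7), (7, 17, 13), (7, 17, 17), (7, 23, 7), (7, 25, 1), (8, 0, 6), (8, 0, 24),
  (8, 4, 14), (8, 4, 20), (8, 6, 0), (8, 6, 24), (8, 8, 8), (8, 8, 22), (8, 10, 16), (8, 12, 12),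
  (8, 12, 18), (8, 14, 4), (8, 14, 20), (8, 16, 10), (8, 16, 16), (8, 18, 12), (8, 20, 4),
  (8, 20, 14), (8, 22, 8), (8, 24, 0), (8, 24, 6), (9, 3, 15), (9, 3, 19), (9, 9, 15),
  (9, 9, 17), (9, 15, 3), (9, 15, 9), (9, 15, 17), (9, 15, 19), (9, 17, 9), (9, 17, 15),
  (9, 19, 3), (9, 19, 15), (10, 0, 0), (10, 0, 24), (10, 8, 16), (10, 16, 8), (10, 16, 16),
  (10, 24, 0), (11, 1, 5), (11, 1, 23), (11, 5, 1), (11, 5, 13), (11, 5, 19), (11, 5, 23),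
  (11, 13, 5), (11, 13, 19), (11, 19, 5), (11, 19, 13), (11, 23, 1), (11, 23, 5), (12, 8, 12),
  (12, 8, 18), (12, 12, 8), (12, 12, 18), (12, 18, 8), (12, 18, 12), (13, 5, 11), (13, 5, 19),
  (13, 7, 13), (13, 7, 17), (13, 11, 5), (13, 11, 19), (13, 13, 7), (13, 13, 13), (13, 13, 17),
  (13, 17, 7), (13, 17, 13), (13, 19, 5), (13, 19, 11), (14, 4, 8), (14, 4, 20), (14, 8, 4),
  (14, 8, 20), (14, 20, 4), (14, 20, 8), (15, 1, 3), (15, 1, 15), (15, 1, 21), (15, 3, 1),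
  (15, 3, 9), (15, 3, 19), (15, 3, 21), (15, 9, 3), (15, 9, 9), (15, 9, 17), (15, 9, 19),
  (15, 15, 1), (15, 15, 15), (15, 17, 9), (15, 19, 3), (15, 19, 9), (15, 21, 1), (15, 21, 3),
  (16, 2, 4), (16, 2, 20), (16, 4, 2), (16, 4, 20), (16, 8, 10), (16, 8, 16), (16, 10, 8),
  (16, 10, 16), (16, 16, 8), (16, 16, 10), (16, 20, 2), (16, 20, 4), (17, 1, 5), (17, 1, 19),
  (17, 5, 1), (17, 5, 19), (17, 7, 7), (17, 7, 13), (17, 7, 17), (17, 9, 9), (17, 9, 15),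
  (17, 13, 7), (17, 13, 13), (17, 15, 9), (17, 17, 7), (17, 19, 1), (17, 19, 5), (18, 8, 12),
  (18, 12, 8), (18, 12, 12), (19, 1, 5), (19, 1, 17), (19, 3, 9), (19, 3, 15), (19, 5, 1),
  (19, 5, 11), (19, 5, 13), (19, 5, 17), (19, 9, 3), (19, 9, 15), (19, 11, 5), (19, 11, 13),
  (19, 13, 5), (19, 13, 11), (19, 15, 3), (19, 15, 9), (19, 17, 1), (19, 17, 5), (20, 2, 4),
  (20, 2, 16), (20, 4, 2), (20, 4, 8), (20, 4, 14), (20, 4, 16), (20, 8, 4), (20, 8, 14),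
  (20, 14, 4), (20, 14, 8), (20, 16, 2), (20, 16, 4), (21, 1, 3), (21, 1, 15), (21, 3, 1),
  (21, 3, 15), (21, 15, 1), (21, 15, 3), (22, 8, 8), (23, 1, 5), (23, 1, 11), (23, 5, 1),
  (23, 5, 11), (23, 7, 7), (23, 11, 1), (23, 11, 5), (24, 0, 0), (24, 0, 6), (24, 0, 8),
  (24, 0, 10), (24, 6, 0), (24, 6, 8), (24, 8, 0), (24, 8, 6), (24, 10, 0), (25, 1, 1),
  (25, 1, 5), (25, 1, 7), (25, 5, 1), (25, 5, 5), (25, 7, 1), (26, 0, 0)]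

theorem vecs_26 : vecs 26 = VL26 := by decide +kernel

end Pool.Agent.Lib.P42cda2
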