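import Pool.Agent.Lib.P42cda2.Fam

set_option autoImplicit false

/-! Explicit lists of the vectors `(x,y,z)` of naturals with `n^2 - x^2 - y^2 - z^2` a square. -/

namespace Pool.Agent.Lib.P42cda2

def VL29 : List V3 :=
  [(0, 0, 0), (0, 0, 20), (0, 0, 21), (0, 0, 29), (0, 3, 16), (0, 3, 24), (0, 11, 12), (0, 11, 24),
  (0, 12, 11), (0, 12, 16), (0, 12, 21), (0, 12, 24), (0, 16, 3), (0, 16, 12), (0, 16, 21),
  (0, 16, 24), (0, 20, 0), (0, 20, 21), (0, 21, 0), (0, 21, 12), (0, 21, 16), (0, 21, 20),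
  (0, 24, 3), (0, 24, 11), (0, 24, 12), (0, 24, 16), (0, 29, 0), (1, 8, 10), (1, 8, 26),
  (1, 10, 8), (1, 10, 16), (1, 10, 22), (1, 10, 26), (1, 16, 10), (1, 16, 22), (1, 22, 10),
  (1, 22, 16), (1, 26, 8), (1, 26, 10), (2, 2, 7), (2, 2, 28), (2, 4, 14), (2, 4, 25),
  (2, 6, 15), (2, 6, 24), (2, 7, 2), (2, 7, 28), (2, 8, 17), (2, 8, 22), (2, 14, 4), (2, 14, 25),
  (2, 15, 6), (2, 15, 24), (2, 17, 8), (2, 17, 22), (2, 22, 8), (2, 22, 17), (2, 24, 6),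
  (2, 24, 15), (2, 25, 4), (2, 25, 14), (2, 28, 2), (2, 28, 7), (3, 0, 16), (3, 0, 24),
  (3, 16, 0), (3, 16, 24), (3, 24, 0), (3, 24, 16), (4, 2, 14), (4, 2, 25), (4, 4, 5),
  (4, 4, 28), (4, 5, 4), (4, 5, 20), (4, 5, 28), (4, 7, 10), (4, 7, 26), (4, 8, 19), (4, 8, 20),
  (4, 10, 7), (4, 10, 10), (4, 10, 14), (4, 10, 23), (4, 10, 25), (4, 10, 26), (4, 13, 16),
  (4, 13, 20), (4, 14, 2), (4, 14, 10), (4, 14, 23), (4, 14, 25), (4, 16, 13), (4, 16, 20),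
  (4, 19, 8), (4, 19, 20), (4, 20, 5), (4, 20, 8), (4, 20, 13), (4, 20, 16), (4, 20, 19),
  (4, 20, 20), (4, 23, 10), (4, 23, 14), (4, 25, 2), (4, 25, 10), (4, 25, 14), (4, 26, 7),
  (4, 26, 10), (4, 28, 4), (4, 28, 5), (5, 4, 4), (5, 4, 20), (5, 4, 28), (5, 20, 4),
  (5, 20, 20), (5, 28, 4), (6, 2, 15), (6, 2, 24), (6, 6, 12), (6, 6, 25), (6, 9, 18),
  (6, 9, 20), (6, 12, 6), (6, 12, 25), (6, 15, 2), (6, 15, 16), (6, 15, 18), (6, 15, 24),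
  (6, 16, 15), (6, 16, 18), (6, 18, 9), (6, 18, 15), (6, 18, 16), (6, 18, 20), (6, 20, 9),
  (6, 20, 18), (6, 24, 2), (6, 24, 15), (6, 25, 6), (6, 25, 12), (7, 2, 2), (7, 2, 28),
  (7, 4, 10), (7, 4, 26), (7, 10, 4), (7, 10, 26), (7, 12, 18), (7, 14, 14), (7, 14, 20),
  (7, 18, 12), (7, 18, 18), (7, 20, 14), (7, 26, 4), (7, 26, 10), (7, 28, 2), (8, 1, 10),
  (8, 1, 26), (8, 2, 17), (8, 2, 22), (8, 4, 19), (8, 4, 20), (8, 10, 1), (8, 10, 26),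
  (8, 11, 16), (8, 11, 20), (8, 16, 11), (8, 16, 20), (8, 17, 2), (8, 17, 22), (8, 19, 4),
  (8, 19, 20), (8, 20, 4), (8, 20, 11), (8, 20, 16), (8, 20, 19), (8, 22, 2), (8, 22, 17),
  (8, 26, 1), (8, 26, 10), (9, 6, 18), (9, 6, 20), (9, 18, 6), (9, 18, 20), (9, 20, 6),
  (9, 20, 18), (10, 1, 8), (10, 1, 16), (10, 1, 22), (10, 1, 26), (10, 4, 7), (10, 4, 10),
  (10, 4, 14), (10, 4, 23), (10, 4, 25), (10, 4, 26), (10, 7, 4), (10, 7, 26), (10, 8, 1),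
  (10, 8, 26), (10, 10, 4), (10, 10, 25), (10, 14, 4), (10, 14, 16), (10, 14, 17), (10, 14, 23),
  (10, 16, 1), (10, 16, 14), (10, 16, 17), (10, 16, 22), (10, 17, 14), (10, 17, 16), (10, 22, 1),
  (10, 22, 16), (10, 23, 4), (10, 23, 14), (10, 25, 4), (10, 25, 10), (10, 26, 1), (10, 26, 4),
  (10, 26, 7), (10, 26, 8), (11, 0, 12), (11, 0, 24), (11, 8, 16), (11, 8, 20), (11, 12, 0),
  (11, 12, 24), (11, 16, 8), (11, 16, 20), (11, 20, 8), (11, 20, 16), (11, 24, 0), (11, 24, 12),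
  (12, 0, 11), (12, 0, 16), (12, 0, 21), (12, 0, 24), (12, 6, 6), (12, 6, 25), (12, 7, 18),
  (12, 11, 0), (12, 11, 24), (12, 16, 0), (12, 16, 21), (12, 18, 7), (12, 18, 18), (12, 21, 0),
  (12, 21, 16), (12, 24, 0), (12, 24, 11), (12, 25, 6), (13, 4, 16), (13, 4, 20), (13, 16, 4),
  (13, 16, 20), (13, 20, 4), (13, 20, 16), (14, 2, 4), (14, 2, 25), (14, 4, 2), (14, 4, 10),
  (14, 4, 23), (14, 4, 25), (14, 7, 14), (14, 7, 20), (14, 10, 4), (14, 10, 16), (14, 10, 17),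
  (14, 10, 23), (14, 14, 7), (14, 14, 20), (14, 16, 10), (14, 16, 17), (14, 17, 10),
  (14, 17, 16), (14, 20, 7), (14, 20, 14), (14, 23, 4), (14, 23, 10), (14, 25, 2), (14, 25, 4),
  (15, 2, 6), (15, 2, 24), (15, 6, 2), (15, 6, 16), (15, 6, 18), (15, 6, 24), (15, 16, 6),
  (15, 16, 18), (15, 18, 6), (15, 18, 16), (15, 24, 2), (15, 24, 6), (16, 0, 3), (16, 0, 12),
  (16, 0, 21), (16, 0, 24), (16, 1, 10), (16, 1, 22), (16, 3, 0), (16, 3, 24), (16, 4, 13),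
  (16, 4, 20), (16, 6, 15), (16, 6, 18), (16, 8, 11), (16, 8, 20), (16, 10, 1), (16, 10, 14),
  (16, 10, 17), (16, 10, 22), (16, 11, 8), (16, 11, 20), (16, 12, 0), (16, 12, 21), (16, 13, 4),
  (16, 13, 20), (16, 14, 10), (16, 14, 17), (16, 15, 6), (16, 15, 18), (16, 17, 10),
  (16, 17, 14), (16, 18, 6), (16, 18, 15), (16, 20, 4), (16, 20, 8), (16, 20, 11), (16, 20, 13),
  (16, 21, 0), (16, 21, 12), (16, 22, 1), (16, 22, 10), (16, 24, 0), (16, 24, 3), (17, 2, 8),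
  (17, 2, 22), (17, 8, 2), (17, 8, 22), (17, 10, 14), (17, 10, 16), (17, 14, 10), (17, 14, 16),
  (17, 16, 10), (17, 16, 14), (17, 22, 2), (17, 22, 8), (18, 6, 9), (18, 6, 15), (18, 6, 16),
  (18, 6, 20), (18, 7, 12), (18, 7, 18), (18, 9, 6), (18, 9, 20), (18, 12, 7), (18, 12, 18),
  (18, 15, 6), (18, 15, 16), (18, 16, 6), (18, 16, 15), (18, 18, 7), (18, 18, 12), (18, 20, 6),
  (18, 20, 9), (19, 4, 8), (19, 4, 20), (19, 8, 4), (19, 8, 20), (19, 20, 4), (19, 20, 8),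
  (20, 0, 0), (20, 0, 21), (20, 4, 5), (20, 4, 8), (20, 4, 13), (20, 4, 16), (20, 4, 19),
  (20, 4, 20), (20, 5, 4), (20, 5, 20), (20, 6, 9), (20, 6, 18), (20, 7, 14), (20, 8, 4),
  (20, 8, 11), (20, 8, 16), (20, 8, 19), (20, 9, 6), (20, 9, 18), (20, 11, 8), (20, 11, 16),
  (20, 13, 4), (20, 13, 16), (20, 14, 7), (20, 14, 14), (20, 16, 4), (20, 16, 8), (20, 16, 11),
  (20, 16, 13), (20, 18, 6), (20, 18, 9), (20, 19, 4), (20, 19, 8), (20, 20, 4), (20, 20, 5),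
  (20, 21, 0), (21, 0, 0), (21, 0, 12), (21, 0, 16), (21, 0, 20), (21, 12, 0), (21, 12, 16),
  (21, 16, 0), (21, 16, 12), (21, 20, 0), (22, 1, 10), (22, 1, 16), (22, 2, 8), (22, 2, 17),
  (22, 8, 2), (22, 8, 17), (22, 10, 1), (22, 10, 16), (22, 16, 1), (22, 16, 10), (22, 17, 2),
  (22, 17, 8), (23, 4, 10), (23, 4, 14), (23, 10, 4), (23, 10, 14), (23, 14, 4), (23, 14, 10),
  (24, 0, 3), (24, 0, 11), (24, 0, 12), (24, 0, 16), (24, 2, 6), (24, 2, 15), (24, 3, 0),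
  (24, 3, 16), (24, 6, 2), (24, 6, 15), (24, 11, 0), (24, 11, 12), (24, 12, 0), (24, 12, 11),
  (24, 15, 2), (24, 15, 6), (24, 16, 0), (24, 16, 3), (25, 2, 4), (25, 2, 14), (25, 4, 2),
  (25, 4, 10), (25, 4, 14), (25, 6, 6), (25, 6, 12), (25, 10, 4), (25, 10, 10), (25, 12, 6),
  (25, 14, 2), (25, 14, 4), (26, 1, 8), (26, 1, 10), (26, 4, 7), (26, 4, 10), (26, 7, 4),
  (26, 7, 10), (26, 8, 1), (26, 8, 10), (26, 10, 1), (26, 10, 4), (26, 10, 7), (26, 10, 8),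
  (28, 2, 2), (28, 2, 7), (28, 4, 4), (28, 4, 5), (28, 5, 4), (28, 7, 2), (29, 0, 0)]

theorem vecs_29 : vecs 29 = VL29 := by decide +kernel

end Pool.Agent.Lib.P42cda2
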