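import Pool.Agent.Lib.P42cda2.Vecs
import Pool.Agent.Lib.P42cda2.VecsB
import Pool.Agent.Lib.P42cda2.VecsC

set_option autoImplicit false

namespace Pool.Agent.Lib.P42cda2

/-- every positive triple realising `F` and satisfying the conditions for all `n ≥ 1` satisfies
`Concl` -/
def Good (F : Fam) : Prop := ∀ a b c : ℤ, 0 < a → 0 < b → 0 < c → (∀ n, 1 ≤ n → At n a b c) →
  Rlz F a b c → Concl a b c

lemma Good.node (n : ℕ) (hn : 1 ≤ n) (vs : List V3) (hvs : vecs n = vs) (F : Fam)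
    (ch : List Fam) (hch : (children vs F).all (fun G => ch.contains G) = true)
    (hgood : ∀ G ∈ ch, Good G) : Good F := by
  intro a b c ha hb hc hAt hreal
  obtain ⟨x, y, z, w, hsq, k, hk⟩ := hAt n hn
  obtain ⟨H, hH, hHreal⟩ := childrenAux_sound ((x : ℤ), (y : ℤ), (z : ℤ)) F a b c k hreal hk
  by_cases hd : dead H = true
  · exact absurd hd (fun h => dead_sound H a b c ha hb hc hHreal h)
  · by_cases ht : target H = true
    · exact target_sound H a b c hHreal ht
    · have hmem := children_mem (vecs n) F _ (vecs_mem n x y z w hsq) H hH (by simpa using hd)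
        (by simpa using ht)
      rw [hvs] at hmem
      have h1 := List.all_eq_true.mp hch H hmem
      exact hgood H (by simpa using h1) a b c ha hb hc hAt hHreal

theorem g0 : Good ⟨1, [(4, 2, 7)]⟩ := by
  refine Good.node 25 (by norm_num) VL25 vecs_25 _ [] (by decide +kernel) ?_
  intro G hG; simp at hG

theorem g1 : Good ⟨2, [(0, 0, 1), (8, 4, -2)]⟩ := by
  refine Good.node 11 (by norm_num) VL11 vecs_11 _ [⟨1, [(4, 2, 7)]⟩] (by decide +kernel) ?_
  intro G hG
  simp only [List.mem_cons, List.not_mem_nil, or_false] at hG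
  subst hG
  exact g0

theorem g2 : Good ⟨2, [(0, 0, 1), (0, 4, -2), (2, 0, 0)]⟩ := by
  refine Good.node 6 (by norm_num) VL6 vecs_6 _ [⟨2, [(0, 0, 1), (8, 4, -2)]⟩] (by decide +kernel) ?_
  intro G hG
  simp only [List.mem_cons, List.not_mem_nil, or_false] at hG
  subst hG
  exact g1

theorem g3 : Good ⟨1, [(0, 0, 1), (4, 2, -4)]⟩ := by
  refine Good.node 11 (by norm_num) VL11 vecs_11 _ [] (by decide +kernel) ?_
  intro G hG; simp at hG

theorem g4 : Good ⟨1, [(0, 0, 1), (0, 2, -4), (1, 0, 0)]⟩ := by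
  refine Good.node 6 (by norm_num) VL6 vecs_6 _ [⟨1, [(0, 0, 1), (4, 2, -4)]⟩] (by decide +kernel) ?_
  intro G hG
  simp only [List.mem_cons, List.not_mem_nil, or_false] at hG
  subst hG
  exact g3

theorem g5 : Good ⟨2, [(2, 1, 3)]⟩ := by
  refine Good.node 29 (by norm_num) VL29 vecs_29 _ [] (by decide +kernel) ?_
  intro G hG; simp at hG

theorem g6 : Good ⟨2, [(0, 0, 1), (2, 1, -1)]⟩ := by
  refine Good.node 11 (by norm_num) VL11 vecs_11 _ [⟨2, [(2, 1, 3)]⟩] (by decide +kernel) ?_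
  intro G hG
  simp only [List.mem_cons, List.not_mem_nil, or_false] at hG
  subst hG
  exact g5

theorem g7 : Good ⟨2, [(0, 0, 1), (0, 1, -1), (2, 0, 0)]⟩ := by
  refine Good.node 7 (by norm_num) VL7 vecs_7 _ [⟨2, [(0, 0, 1), (2, 1, -1)]⟩] (by decide +kernel) ?_
  intro G hG
  simp only [List.mem_cons, List.not_mem_nil, or_false] at hG
  subst hG
  exact g6

theorem g8 : Good ⟨2, [(2, 16, 3)]⟩ := by
  refine Good.node 6 (by norm_num) VL6 vecs_6 _ [] (by decide +kernel) ?_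
  intro G hG; simp at hG

theorem g9 : Good ⟨2, [(0, 0, 1), (0, 1, 0), (2, 0, -1)]⟩ := by
  refine Good.node 22 (by norm_num) VL22 vecs_22 _ [⟨2, [(0, 0, 1), (2, 1, -1)]⟩, ⟨2, [(2, 16, 3)]⟩] (by decide +kernel) ?_
  intro G hG
  simp only [List.mem_cons, List.not_mem_nil, or_false] at hG
  rcases hG with rfl | rfl
  · exact g6
  · exact g8

theorem g10 : Good ⟨2, [(0, 0, 1), (2, 1, -2)]⟩ := by
  refine Good.node 9 (by norm_num) VL9 vecs_9 _ [] (by decide +kernel) ?_
  intro G hG; simp at hG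

theorem g11 : Good ⟨2, [(0, 0, 1), (0, 1, -1), (2, 0, -1)]⟩ := by
  refine Good.node 6 (by norm_num) VL6 vecs_6 _ [⟨2, [(0, 0, 1), (2, 1, -2)]⟩] (by decide +kernel) ?_
  intro G hG
  simp only [List.mem_cons, List.not_mem_nil, or_false] at hG
  subst hG
  exact g10

theorem g12 : Good ⟨1, [(4, 2, 56)]⟩ := by
  refine Good.node 26 (by norm_num) VL26 vecs_26 _ [] (by decide +kernel) ?_
  intro G hG; simp at hG

theorem g13 : Good ⟨1, [(0, 0, 1), (4, 2, -8)]⟩ := by
  refine Good.node 22 (by norm_num) VL22 vecs_22 _ [⟨1, [(4, 2, 56)]⟩] (by decide +kernel) ?_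
  intro G hG
  simp only [List.mem_cons, List.not_mem_nil, or_false] at hG
  subst hG
  exact g12

theorem g14 : Good ⟨1, [(0, 0, 1), (1, 2, -2)]⟩ := by
  refine Good.node 18 (by norm_num) VL18 vecs_18 _ [] (by decide +kernel) ?_
  intro G hG; simp at hG

theorem g15 : Good ⟨1, [(1, 2, 2)]⟩ := by
  refine Good.node 18 (by norm_num) VL18 vecs_18 _ [] (by decide +kernel) ?_
  intro G hG; simp at hG

theorem g16 : Good ⟨1, [(0, 2, 4), (1, 0, -2)]⟩ := by
  refine Good.node 11 (by norm_num) VL11 vecs_11 _ [⟨1, [(1, 2, 2)]⟩] (by decide +kernel) ?_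
  intro G hG
  simp only [List.mem_cons, List.not_mem_nil, or_false] at hG
  subst hG
  exact g15

theorem g17 : Good ⟨1, [(0, 0, 1), (0, 2, 0), (1, 0, -2)]⟩ := by
  refine Good.node 6 (by norm_num) VL6 vecs_6 _ [⟨1, [(0, 0, 1), (4, 2, -8)]⟩, ⟨1, [(0, 0, 1), (1, 2, -2)]⟩, ⟨1, [(0, 2, 4), (1, 0, -2)]⟩] (by decide +kernel) ?_
  intro G hG
  simp only [List.mem_cons, List.not_mem_nil, or_false] at hG
  rcases hG with rfl | rfl | rfl
  · exact g13
  · exact g14
  · exact g16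

theorem g18 : Good ⟨1, [(1, 8, 1)]⟩ := by
  refine Good.node 11 (by norm_num) VL11 vecs_11 _ [] (by decide +kernel) ?_
  intro G hG; simp at hG

theorem g19 : Good ⟨2, [(0, 0, 1), (0, 1, 0), (2, 0, -2)]⟩ := by
  refine Good.node 6 (by norm_num) VL6 vecs_6 _ [⟨2, [(0, 0, 1), (2, 1, -2)]⟩, ⟨1, [(1, 8, 1)]⟩] (by decide +kernel) ?_
  intro G hG
  simp only [List.mem_cons, List.not_mem_nil, or_false] at hG
  rcases hG with rfl | rfl
  · exact g10
  · exact g18

theorem g20 : Good ⟨2, [(0, 0, 1), (8, 4, -10)]⟩ := by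
  refine Good.node 11 (by norm_num) VL11 vecs_11 _ [] (by decide +kernel) ?_
  intro G hG; simp at hG

theorem g21 : Good ⟨2, [(0, 0, 1), (0, 4, -2), (2, 0, -2)]⟩ := by
  refine Good.node 7 (by norm_num) VL7 vecs_7 _ [⟨2, [(0, 0, 1), (8, 4, -10)]⟩] (by decide +kernel) ?_
  intro G hG
  simp only [List.mem_cons, List.not_mem_nil, or_false] at hG
  subst hG
  exact g20

theorem g22 : Good ⟨1, [(4, 2, 4)]⟩ := by
  refine Good.node 9 (by norm_num) VL9 vecs_9 _ [] (by decide +kernel) ?_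
  intro G hG; simp at hG

theorem g23 : Good ⟨1, [(0, 2, -4), (1, 0, 2)]⟩ := by
  refine Good.node 7 (by norm_num) VL7 vecs_7 _ [⟨1, [(4, 2, 4)]⟩] (by decide +kernel) ?_
  intro G hG
  simp only [List.mem_cons, List.not_mem_nil, or_false] at hG
  subst hG
  exact g22

theorem g24 : Good ⟨1, [(0, 0, 1), (4, 2, -12)]⟩ := by
  refine Good.node 9 (by norm_num) VL9 vecs_9 _ [] (by decide +kernel) ?_
  intro G hG; simp at hG

theorem g25 : Good ⟨1, [(0, 0, 1), (0, 2, -4), (1, 0, -2)]⟩ := by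
  refine Good.node 6 (by norm_num) VL6 vecs_6 _ [⟨1, [(0, 2, -4), (1, 0, 2)]⟩, ⟨1, [(0, 0, 1), (4, 2, -12)]⟩] (by decide +kernel) ?_
  intro G hG
  simp only [List.mem_cons, List.not_mem_nil, or_false] at hG
  rcases hG with rfl | rfl
  · exact g23
  · exact g24

theorem g26 : Good ⟨1, [(0, -1, 1), (0, 2, -1), (1, -2, 1)]⟩ := by
  refine Good.node 6 (by norm_num) VL6 vecs_6 _ [] (by decide +kernel) ?_
  intro G hG; simp at hG

theorem g27 : Good ⟨2, [(0, -1, 1), (0, 2, 0), (2, -1, -1)]⟩ := by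
  refine Good.node 6 (by norm_num) VL6 vecs_6 _ [] (by decide +kernel) ?_
  intro G hG; simp at hG

theorem g28 : Good ⟨1, [(0, -1, 1), (0, 1, 0), (1, 1, -2)]⟩ := by
  refine Good.node 6 (by norm_num) VL6 vecs_6 _ [] (by decide +kernel) ?_
  intro G hG; simp at hG

theorem g29 : Good ⟨2, [(0, -1, 1), (0, 2, 0), (2, 0, -2)]⟩ := by
  refine Good.node 6 (by norm_num) VL6 vecs_6 _ [] (by decide +kernel) ?_
  intro G hG; simp at hG

theorem g30 : Good ⟨1, [(0, -1, 1), (0, 2, -1), (1, 0, -1)]⟩ := by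
  refine Good.node 11 (by norm_num) VL11 vecs_11 _ [] (by decide +kernel) ?_
  intro G hG; simp at hG

theorem g31 : Good ⟨1, [(1, 2, 28)]⟩ := by
  refine Good.node 13 (by norm_num) VL13 vecs_13 _ [] (by decide +kernel) ?_
  intro G hG; simp at hG

theorem g32 : Good ⟨2, [(0, 0, 1), (2, 4, -8)]⟩ := by
  refine Good.node 11 (by norm_num) VL11 vecs_11 _ [⟨1, [(1, 2, 28)]⟩] (by decide +kernel) ?_
  intro G hG
  simp only [List.mem_cons, List.not_mem_nil, or_false] at hG
  subst hG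
  exact g31

theorem g33 : Good ⟨5, [(0, 0, 1), (5, 10, -3)]⟩ := by
  refine Good.node 7 (by norm_num) VL7 vecs_7 _ [] (by decide +kernel) ?_
  intro G hG; simp at hG

theorem g34 : Good ⟨5, [(0, 0, 1), (5, 10, -7)]⟩ := by
  refine Good.node 7 (by norm_num) VL7 vecs_7 _ [] (by decide +kernel) ?_
  intro G hG; simp at hG

theorem g35 : Good ⟨2, [(2, 4, 1)]⟩ := by
  refine Good.node 22 (by norm_num) VL22 vecs_22 _ [] (by decide +kernel) ?_
  intro G hG; simp at hG

theorem g36 : Good ⟨4, [(0, 0, 1), (4, 8, -2)]⟩ := by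
  refine Good.node 13 (by norm_num) VL13 vecs_13 _ [⟨2, [(2, 4, 1)]⟩] (by decide +kernel) ?_
  intro G hG
  simp only [List.mem_cons, List.not_mem_nil, or_false] at hG
  subst hG
  exact g35

theorem g37 : Good ⟨4, [(0, 0, 1), (4, 8, -10)]⟩ := by
  refine Good.node 22 (by norm_num) VL22 vecs_22 _ [] (by decide +kernel) ?_
  intro G hG; simp at hG

theorem g38 : Good ⟨1, [(0, 0, 1), (1, 2, -5)]⟩ := by
  refine Good.node 7 (by norm_num) VL7 vecs_7 _ [] (by decide +kernel) ?_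
  intro G hG; simp at hG

theorem g39 : Good ⟨5, [(0, 0, 1), (5, 10, -5)]⟩ := by
  refine Good.node 7 (by norm_num) VL7 vecs_7 _ [] (by decide +kernel) ?_
  intro G hG; simp at hG

theorem g40 : Good ⟨1, [(0, 0, 1), (1, 2, -13)]⟩ := by
  refine Good.node 7 (by norm_num) VL7 vecs_7 _ [] (by decide +kernel) ?_
  intro G hG; simp at hG

theorem g41 : Good ⟨2, [(0, 0, 1), (2, 4, -4)]⟩ := by
  refine Good.node 7 (by norm_num) VL7 vecs_7 _ [] (by decide +kernel) ?_
  intro G hG; simp at hG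

theorem g42 : Good ⟨4, [(0, 0, 1), (1, 2, -1)]⟩ := by
  refine Good.node 7 (by norm_num) VL7 vecs_7 _ [] (by decide +kernel) ?_
  intro G hG; simp at hG

theorem g43 : Good ⟨4, [(0, 0, 1), (1, 2, -2)]⟩ := by
  refine Good.node 18 (by norm_num) VL18 vecs_18 _ [] (by decide +kernel) ?_
  intro G hG; simp at hG

theorem g44 : Good ⟨2, [(0, 0, 1), (2, 4, -12)]⟩ := by
  refine Good.node 18 (by norm_num) VL18 vecs_18 _ [] (by decide +kernel) ?_
  intro G hG; simp at hG

theorem g45 : Good ⟨1, [(0, 0, 1), (1, 2, -7)]⟩ := by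
  refine Good.node 7 (by norm_num) VL7 vecs_7 _ [] (by decide +kernel) ?_
  intro G hG; simp at hG

theorem g46 : Good ⟨3, [(0, 0, 1), (3, 6, -7)]⟩ := by
  refine Good.node 7 (by norm_num) VL7 vecs_7 _ [] (by decide +kernel) ?_
  intro G hG; simp at hG

theorem g47 : Good ⟨1, [(0, 0, 1), (1, 2, -11)]⟩ := by
  refine Good.node 23 (by norm_num) VL23 vecs_23 _ [] (by decide +kernel) ?_
  intro G hG; simp at hG

end Pool.Agent.Lib.P42cda2
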