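import Pool.Agent.Lib.P42cda2.Fam

set_option autoImplicit false

/-! Explicit lists of the vectors `(x,y,z)` of naturals with `n^2 - x^2 - y^2 - z^2` a square. -/

namespace Pool.Agent.Lib.P42cda2

def VL1 : List V3 :=
  [(0, 0, 0), (0, 0, 1), (0, 1, 0), (1, 0, 0)]

theorem vecs_1 : vecs 1 = VL1 := by decide +kernel

def VL2 : List V3 :=
  [(0, 0, 0), (0, 0, 2), (0, 2, 0), (1, 1, 1), (2, 0, 0)]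

theorem vecs_2 : vecs 2 = VL2 := by decide +kernel

def VL3 : List V3 :=
  [(0, 0, 0), (0, 0, 3), (0, 1, 2), (0, 2, 1), (0, 2, 2), (0, 3, 0), (1, 0, 2), (1, 2, 0),
  (1, 2, 2), (2, 0, 1), (2, 0, 2), (2, 1, 0), (2, 1, 2), (2, 2, 0), (2, 2, 1), (3, 0, 0)]

theorem vecs_3 : vecs 3 = VL3 := by decide +kernel

def VL6 : List V3 :=
  [(0, 0, 0), (0, 0, 6), (0, 2, 4), (0, 4, 2), (0, 4, 4), (0, 6, 0), (1, 1, 3), (1, 1, 5),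
  (1, 3, 1), (1, 3, 5), (1, 5, 1), (1, 5, 3), (2, 0, 4), (2, 4, 0), (2, 4, 4), (3, 1, 1),
  (3, 1, 5), (3, 3, 3), (3, 5, 1), (4, 0, 2), (4, 0, 4), (4, 2, 0), (4, 2, 4), (4, 4, 0),
  (4, 4, 2), (5, 1, 1), (5, 1, 3), (5, 3, 1), (6, 0, 0)]

theorem vecs_6 : vecs 6 = VL6 := by decide +kernel

def VL7 : List V3 :=
  [(0, 0, 0), (0, 0, 7), (0, 2, 3), (0, 2, 6), (0, 3, 2), (0, 3, 6), (0, 6, 2), (0, 6, 3),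
  (0, 7, 0), (1, 4, 4), (2, 0, 3), (2, 0, 6), (2, 2, 4), (2, 2, 5), (2, 3, 0), (2, 3, 6),
  (2, 4, 2), (2, 4, 5), (2, 5, 2), (2, 5, 4), (2, 6, 0), (2, 6, 3), (3, 0, 2), (3, 0, 6),
  (3, 2, 0), (3, 2, 6), (3, 6, 0), (3, 6, 2), (4, 1, 4), (4, 2, 2), (4, 2, 5), (4, 4, 1),
  (4, 4, 4), (4, 5, 2), (5, 2, 2), (5, 2, 4), (5, 4, 2), (6, 0, 2), (6, 0, 3), (6, 2, 0),
  (6, 2, 3), (6, 3, 0), (6, 3, 2), (7, 0, 0)]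

theorem vecs_7 : vecs 7 = VL7 := by decide +kernel

def VL9 : List V3 :=
  [(0, 0, 0), (0, 0, 9), (0, 1, 4), (0, 1, 8), (0, 3, 6), (0, 4, 1), (0, 4, 4), (0, 4, 7),
  (0, 4, 8), (0, 6, 3), (0, 6, 6), (0, 7, 4), (0, 8, 1), (0, 8, 4), (0, 9, 0), (1, 0, 4),
  (1, 0, 8), (1, 4, 0), (1, 4, 8), (1, 8, 0), (1, 8, 4), (2, 2, 3), (2, 2, 8), (2, 3, 2),
  (2, 3, 8), (2, 4, 5), (2, 4, 6), (2, 5, 4), (2, 5, 6), (2, 6, 4), (2, 6, 5), (2, 8, 2),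
  (2, 8, 3), (3, 0, 6), (3, 2, 2), (3, 2, 8), (3, 6, 0), (3, 6, 6), (3, 8, 2), (4, 0, 1),
  (4, 0, 4), (4, 0, 7), (4, 0, 8), (4, 1, 0), (4, 1, 8), (4, 2, 5), (4, 2, 6), (4, 4, 0),
  (4, 4, 7), (4, 5, 2), (4, 5, 6), (4, 6, 2), (4, 6, 5), (4, 7, 0), (4, 7, 4), (4, 8, 0),
  (4, 8, 1), (5, 2, 4), (5, 2, 6), (5, 4, 2), (5, 4, 6), (5, 6, 2), (5, 6, 4), (6, 0, 3),
  (6, 0, 6), (6, 2, 4), (6, 2, 5), (6, 3, 0), (6, 3, 6), (6, 4, 2), (6, 4, 5), (6, 5, 2),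
  (6, 5, 4), (6, 6, 0), (6, 6, 3), (7, 0, 4), (7, 4, 0), (7, 4, 4), (8, 0, 1), (8, 0, 4),
  (8, 1, 0), (8, 1, 4), (8, 2, 2), (8, 2, 3), (8, 3, 2), (8, 4, 0), (8, 4, 1), (9, 0, 0)]

theorem vecs_9 : vecs 9 = VL9 := by decide +kernel

def VL11 : List V3 :=
  [(0, 0, 0), (0, 0, 11), (0, 2, 6), (0, 2, 9), (0, 6, 2), (0, 6, 6), (0, 6, 7), (0, 6, 9),
  (0, 7, 6), (0, 9, 2), (0, 9, 6), (0, 11, 0), (1, 2, 4), (1, 2, 10), (1, 4, 2), (1, 4, 10),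
  (1, 10, 2), (1, 10, 4), (2, 0, 6), (2, 0, 9), (2, 1, 4), (2, 1, 10), (2, 2, 7), (2, 2, 8),
  (2, 4, 1), (2, 4, 10), (2, 6, 0), (2, 6, 9), (2, 7, 2), (2, 7, 8), (2, 8, 2), (2, 8, 7),
  (2, 9, 0), (2, 9, 6), (2, 10, 1), (2, 10, 4), (4, 1, 2), (4, 1, 10), (4, 2, 1), (4, 2, 10),
  (4, 4, 5), (4, 4, 8), (4, 5, 4), (4, 5, 8), (4, 8, 4), (4, 8, 5), (4, 10, 1), (4, 10, 2),
  (5, 4, 4), (5, 4, 8), (5, 8, 4), (6, 0, 2), (6, 0, 6), (6, 0, 7), (6, 0, 9), (6, 2, 0),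
  (6, 2, 9), (6, 6, 0), (6, 6, 7), (6, 7, 0), (6, 7, 6), (6, 9, 0), (6, 9, 2), (7, 0, 6),
  (7, 2, 2), (7, 2, 8), (7, 6, 0), (7, 6, 6), (7, 8, 2), (8, 2, 2), (8, 2, 7), (8, 4, 4),
  (8, 4, 5), (8, 5, 4), (8, 7, 2), (9, 0, 2), (9, 0, 6), (9, 2, 0), (9, 2, 6), (9, 6, 0),
  (9, 6, 2), (10, 1, 2), (10, 1, 4), (10, 2, 1), (10, 2, 4), (10, 4, 1), (10, 4, 2), (11, 0, 0)]

theorem vecs_11 : vecs 11 = VL11 := by decide +kernel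

def VL13 : List V3 :=
  [(0, 0, 0), (0, 0, 5), (0, 0, 12), (0, 0, 13), (0, 3, 4), (0, 3, 12), (0, 4, 3), (0, 4, 12),
  (0, 5, 0), (0, 5, 12), (0, 12, 0), (0, 12, 3), (0, 12, 4), (0, 12, 5), (0, 13, 0), (1, 2, 8),
  (1, 2, 10), (1, 8, 2), (1, 8, 10), (1, 10, 2), (1, 10, 8), (2, 1, 8), (2, 1, 10), (2, 4, 7),
  (2, 4, 10), (2, 7, 4), (2, 7, 10), (2, 8, 1), (2, 8, 10), (2, 10, 1), (2, 10, 4), (2, 10, 7),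
  (2, 10, 8), (3, 0, 4), (3, 0, 12), (3, 4, 0), (3, 4, 12), (3, 12, 0), (3, 12, 4), (4, 0, 3),
  (4, 0, 12), (4, 2, 7), (4, 2, 10), (4, 3, 0), (4, 3, 12), (4, 4, 4), (4, 4, 11), (4, 5, 8),
  (4, 6, 6), (4, 6, 9), (4, 7, 2), (4, 7, 10), (4, 8, 5), (4, 8, 8), (4, 9, 6), (4, 10, 2),
  (4, 10, 7), (4, 11, 4), (4, 12, 0), (4, 12, 3), (5, 0, 0), (5, 0, 12), (5, 4, 8), (5, 8, 4),
  (5, 8, 8), (5, 12, 0), (6, 4, 6), (6, 4, 9), (6, 6, 4), (6, 6, 9), (6, 9, 4), (6, 9, 6),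
  (7, 2, 4), (7, 2, 10), (7, 4, 2), (7, 4, 10), (7, 10, 2), (7, 10, 4), (8, 1, 2), (8, 1, 10),
  (8, 2, 1), (8, 2, 10), (8, 4, 5), (8, 4, 8), (8, 5, 4), (8, 5, 8), (8, 8, 4), (8, 8, 5),
  (8, 10, 1), (8, 10, 2), (9, 4, 6), (9, 6, 4), (9, 6, 6), (10, 1, 2), (10, 1, 8), (10, 2, 1),
  (10, 2, 4), (10, 2, 7), (10, 2, 8), (10, 4, 2), (10, 4, 7), (10, 7, 2), (10, 7, 4), (10, 8, 1),
  (10, 8, 2), (11, 4, 4), (12, 0, 0), (12, 0, 3), (12, 0, 4), (12, 0, 5), (12, 3, 0), (12, 3, 4),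
  (12, 4, 0), (12, 4, 3), (12, 5, 0), (13, 0, 0)]

theorem vecs_13 : vecs 13 = VL13 := by decide +kernel

def VL18 : List V3 :=
  [(0, 0, 0), (0, 0, 18), (0, 2, 8), (0, 2, 16), (0, 6, 12), (0, 8, 2), (0, 8, 8), (0, 8, 14),
  (0, 8, 16), (0, 12, 6), (0, 12, 12), (0, 14, 8), (0, 16, 2), (0, 16, 8), (0, 18, 0), (1, 3, 5),
  (1, 3, 17), (1, 5, 3), (1, 5, 17), (1, 7, 7), (1, 7, 15), (1, 9, 11), (1, 11, 9), (1, 11, 11),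
  (1, 15, 7), (1, 17, 3), (1, 17, 5), (2, 0, 8), (2, 0, 16), (2, 8, 0), (2, 8, 16), (2, 16, 0),
  (2, 16, 8), (3, 1, 5), (3, 1, 17), (3, 3, 9), (3, 3, 15), (3, 5, 1), (3, 5, 11), (3, 5, 13),
  (3, 5, 17), (3, 9, 3), (3, 9, 15), (3, 11, 5), (3, 11, 13), (3, 13, 5), (3, 13, 11),
  (3, 15, 3), (3, 15, 9), (3, 17, 1), (3, 17, 5), (4, 4, 6), (4, 4, 16), (4, 6, 4), (4, 6, 16),
  (4, 8, 10), (4, 8, 12), (4, 10, 8), (4, 10, 12), (4, 12, 8), (4, 12, 10), (4, 16, 4),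
  (4, 16, 6), (5, 1, 3), (5, 1, 17), (5, 3, 1), (5, 3, 11), (5, 3, 13), (5, 3, 17), (5, 5, 7),
  (5, 5, 15), (5, 7, 5), (5, 7, 9), (5, 7, 13), (5, 7, 15), (5, 9, 7), (5, 9, 13), (5, 11, 3),
  (5, 11, 13), (5, 13, 3), (5, 13, 7), (5, 13, 9), (5, 13, 11), (5, 15, 5), (5, 15, 7),
  (5, 17, 1), (5, 17, 3), (6, 0, 12), (6, 4, 4), (6, 4, 16), (6, 12, 0), (6, 12, 12), (6, 16, 4),
  (7, 1, 7), (7, 1, 15), (7, 5, 5), (7, 5, 9), (7, 5, 13), (7, 5, 15), (7, 7, 1), (7, 7, 15),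
  (7, 9, 5), (7, 9, 13), (7, 13, 5), (7, 13, 9), (7, 15, 1), (7, 15, 5), (7, 15, 7), (8, 0, 2),
  (8, 0, 8), (8, 0, 14), (8, 0, 16), (8, 2, 0), (8, 2, 16), (8, 4, 10), (8, 4, 12), (8, 8, 0),
  (8, 8, 14), (8, 10, 4), (8, 10, 12), (8, 12, 4), (8, 12, 10), (8, 14, 0), (8, 14, 8),
  (8, 16, 0), (8, 16, 2), (9, 1, 11), (9, 3, 3), (9, 3, 15), (9, 5, 7), (9, 5, 13), (9, 7, 5),
  (9, 7, 13), (9, 9, 9), (9, 11, 1), (9, 11, 11), (9, 13, 5), (9, 13, 7), (9, 15, 3), (10, 4, 8),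
  (10, 4, 12), (10, 8, 4), (10, 8, 12), (10, 12, 4), (10, 12, 8), (11, 1, 9), (11, 1, 11),
  (11, 3, 5), (11, 3, 13), (11, 5, 3), (11, 5, 13), (11, 9, 1), (11, 9, 11), (11, 11, 1),
  (11, 11, 9), (11, 13, 3), (11, 13, 5), (12, 0, 6), (12, 0, 12), (12, 4, 8), (12, 4, 10),
  (12, 6, 0), (12, 6, 12), (12, 8, 4), (12, 8, 10), (12, 10, 4), (12, 10, 8), (12, 12, 0),
  (12, 12, 6), (13, 3, 5), (13, 3, 11), (13, 5, 3), (13, 5, 7), (13, 5, 9), (13, 5, 11),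
  (13, 7, 5), (13, 7, 9), (13, 9, 5), (13, 9, 7), (13, 11, 3), (13, 11, 5), (14, 0, 8),
  (14, 8, 0), (14, 8, 8), (15, 1, 7), (15, 3, 3), (15, 3, 9), (15, 5, 5), (15, 5, 7), (15, 7, 1),
  (15, 7, 5), (15, 7, 7), (15, 9, 3), (16, 0, 2), (16, 0, 8), (16, 2, 0), (16, 2, 8), (16, 4, 4),
  (16, 4, 6), (16, 6, 4), (16, 8, 0), (16, 8, 2), (17, 1, 3), (17, 1, 5), (17, 3, 1), (17, 3, 5),
  (17, 5, 1), (17, 5, 3), (18, 0, 0)]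

theorem vecs_18 : vecs 18 = VL18 := by decide +kernel

def VL22 : List V3 :=
  [(0, 0, 0), (0, 0, 22), (0, 4, 12), (0, 4, 18), (0, 12, 4), (0, 12, 12), (0, 12, 14),
  (0, 12, 18), (0, 14, 12), (0, 18, 4), (0, 18, 12), (0, 22, 0), (1, 1, 11), (1, 1, 19),
  (1, 5, 13), (1, 5, 17), (1, 11, 1), (1, 11, 19), (1, 13, 5), (1, 13, 17), (1, 17, 5),
  (1, 17, 13), (1, 19, 1), (1, 19, 11), (2, 4, 8), (2, 4, 20), (2, 8, 4), (2, 8, 20), (2, 20, 4),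
  (2, 20, 8), (3, 3, 5), (3, 3, 21), (3, 5, 3), (3, 5, 15), (3, 5, 21), (3, 9, 13), (3, 9, 15),
  (3, 13, 9), (3, 13, 15), (3, 15, 5), (3, 15, 9), (3, 15, 13), (3, 15, 15), (3, 21, 3),
  (3, 21, 5), (4, 0, 12), (4, 0, 18), (4, 2, 8), (4, 2, 20), (4, 4, 14), (4, 4, 16), (4, 8, 2),
  (4, 8, 20), (4, 12, 0), (4, 12, 18), (4, 14, 4), (4, 14, 16), (4, 16, 4), (4, 16, 14),
  (4, 18, 0), (4, 18, 12), (4, 20, 2), (4, 20, 8), (5, 1, 13), (5, 1, 17), (5, 3, 3), (5, 3, 15),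
  (5, 3, 21), (5, 7, 7), (5, 7, 11), (5, 7, 17), (5, 7, 19), (5, 11, 7), (5, 11, 13),
  (5, 11, 17), (5, 13, 1), (5, 13, 11), (5, 13, 13), (5, 13, 17), (5, 15, 3), (5, 15, 15),
  (5, 17, 1), (5, 17, 7), (5, 17, 11), (5, 17, 13), (5, 19, 7), (5, 21, 3), (7, 5, 7),
  (7, 5, 11), (7, 5, 17), (7, 5, 19), (7, 7, 5), (7, 7, 19), (7, 11, 5), (7, 11, 17), (7, 17, 5),
  (7, 17, 11), (7, 19, 5), (7, 19, 7), (8, 2, 4), (8, 2, 20), (8, 4, 2), (8, 4, 20), (8, 8, 10),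
  (8, 8, 16), (8, 10, 8), (8, 10, 16), (8, 16, 8), (8, 16, 10), (8, 20, 2), (8, 20, 4),
  (9, 3, 13), (9, 3, 15), (9, 13, 3), (9, 13, 15), (9, 15, 3), (9, 15, 13), (10, 8, 8),
  (10, 8, 16), (10, 16, 8), (11, 1, 1), (11, 1, 19), (11, 5, 7), (11, 5, 13), (11, 5, 17),
  (11, 7, 5), (11, 7, 17), (11, 11, 11), (11, 13, 5), (11, 13, 13), (11, 17, 5), (11, 17, 7),
  (11, 19, 1), (12, 0, 4), (12, 0, 12), (12, 0, 14), (12, 0, 18), (12, 4, 0), (12, 4, 18),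
  (12, 12, 0), (12, 12, 14), (12, 14, 0), (12, 14, 12), (12, 18, 0), (12, 18, 4), (13, 1, 5),
  (13, 1, 17), (13, 3, 9), (13, 3, 15), (13, 5, 1), (13, 5, 11), (13, 5, 13), (13, 5, 17),
  (13, 9, 3), (13, 9, 15), (13, 11, 5), (13, 11, 13), (13, 13, 5), (13, 13, 11), (13, 15, 3),
  (13, 15, 9), (13, 17, 1), (13, 17, 5), (14, 0, 12), (14, 4, 4), (14, 4, 16), (14, 12, 0),
  (14, 12, 12), (14, 16, 4), (15, 3, 5), (15, 3, 9), (15, 3, 13), (15, 3, 15), (15, 5, 3),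
  (15, 5, 15), (15, 9, 3), (15, 9, 13), (15, 13, 3), (15, 13, 9), (15, 15, 3), (15, 15, 5),
  (16, 4, 4), (16, 4, 14), (16, 8, 8), (16, 8, 10), (16, 10, 8), (16, 14, 4), (17, 1, 5),
  (17, 1, 13), (17, 5, 1), (17, 5, 7), (17, 5, 11), (17, 5, 13), (17, 7, 5), (17, 7, 11),
  (17, 11, 5), (17, 11, 7), (17, 13, 1), (17, 13, 5), (18, 0, 4), (18, 0, 12), (18, 4, 0),
  (18, 4, 12), (18, 12, 0), (18, 12, 4), (19, 1, 1), (19, 1, 11), (19, 5, 7), (19, 7, 5),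
  (19, 7, 7), (19, 11, 1), (20, 2, 4), (20, 2, 8), (20, 4, 2), (20, 4, 8), (20, 8, 2),
  (20, 8, 4), (21, 3, 3), (21, 3, 5), (21, 5, 3), (22, 0, 0)]

theorem vecs_22 : vecs 22 = VL22 := by decide +kernel

end Pool.Agent.Lib.P42cda2
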